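import Pool.Agent.R299.Mey.Meyer2

open Set MeasureTheory Filter Topology
open scoped ENNReal

namespace Pool.Agent.R299.Mey

/-- Closed half-space. -/
def HS (v : E3) (c : ℝ) : Set E3 := {x | c ≤ inner ℝ x v}

lemma HS_closed (v : E3) (c : ℝ) : IsClosed (HS v c) :=
  isClosed_le continuous_const (by fun_prop)

lemma HS_convex (v : E3) (c : ℝ) : Convex ℝ (HS v c) := by
  intro x hx y hy a b ha hb hab
  have hx' : c ≤ inner ℝ x v := hx
  have hy' : c ≤ inner ℝ y v := hy
  show c ≤ inner ℝ (a • x + b • y) v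
  rw [inner_add_left, inner_smul_left, inner_smul_left]
  simp only [conj_trivial]
  have hb' : b = 1 - a := by linarith
  subst hb'
  nlinarith

/-- Interior points of a subset of a half-space satisfy the strict inequality. -/
lemma int_lt {v : E3} (hv : v ≠ 0) {c : ℝ} {A : Set E3} (hA : A ⊆ HS v c) {y : E3}
    (hy : y ∈ interior A) : c < inner ℝ y v := by
  have h1 : Tendsto (fun ε : ℝ => y - ε • v) (𝓝[>] 0) (𝓝 y) := by
    have : Tendsto (fun ε : ℝ => y - ε • v) (𝓝 0) (𝓝 (y - (0 : ℝ) • v)) :=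
      (continuous_const.sub (continuous_id.smul continuous_const)).tendsto 0
    rw [zero_smul, sub_zero] at this
    exact this.mono_left nhdsWithin_le_nhds
  have h2 := h1.eventually (isOpen_interior.mem_nhds hy)
  obtain ⟨ε, hε1, hε2⟩ := (h2.and self_mem_nhdsWithin).exists
  have h3 : c ≤ inner ℝ (y - ε • v) v := hA (interior_subset hε1)
  rw [inner_sub_left, inner_smul_left, real_inner_self_eq_norm_sq] at h3
  simp only [conj_trivial] at h3
  have h4 : 0 < ε * ‖v‖ ^ 2 := mul_pos hε2 (by positivity)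
  linarith

lemma slice_pos_ne {D : Set E3} {x e f : E3} (h : 0 < volume (slice D x e f)) :
    ∃ p ∈ slice D x e f, ∃ q ∈ slice D x e f, p ≠ q := by
  by_contra hcon
  push Not at hcon
  have : (slice D x e f).Subsingleton := fun p hp q hq => hcon p hp q hq
  rw [this.measure_zero] at h
  exact lt_irrefl _ h

lemma interior_slice {D : Set E3} (hconv : Convex ℝ D) {x e f : E3}
    (h : 0 < volume (slice D x e f)) : (interior (slice D x e f)).Nonempty := by
  by_contra hcon
  rw [not_nonempty_iff_eq_empty] at hcon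
  have h1 : slice D x e f ⊆ frontier (slice D x e f) := by
    rw [frontier, hcon, sdiff_empty]
    exact subset_closure
  have h2 := measure_mono_null h1 ((slice_convex hconv x e f).addHaar_frontier volume)
  rw [h2] at h
  exact lt_irrefl _ h

/-- A half-space type set containing a maximal section contains all its points. -/
lemma full {D : Set E3} (hconv : Convex ℝ D) (hpos : 0 < sig D)
    (hfin : sig D ≠ ∞) {K : Set E3} (hK : IsClosed K) (hDc : IsClosed D)
    (h : HM D (sig D) K) : ∃ θ ∈ Fr D,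
      volume (slice D θ.1 θ.2.1 θ.2.2) = sig D ∧ ∀ p ∈ slice D θ.1 θ.2.1 θ.2.2,
        θ.1 + p.1 • θ.2.1 + p.2 • θ.2.2 ∈ K := by
  obtain ⟨θ, hθ, hs⟩ := h
  have hsub : slice (D ∩ K) θ.1 θ.2.1 θ.2.2 ⊆ slice D θ.1 θ.2.1 θ.2.2 := fun p hp => hp.1
  have hle : volume (slice D θ.1 θ.2.1 θ.2.2) ≤ sig D := le_sig D _ hθ.2
  have heq : volume (slice D θ.1 θ.2.1 θ.2.2) = sig D :=
    le_antisymm hle (hs.trans (measure_mono hsub))
  refine ⟨θ, hθ, heq, ?_⟩
  have hBc : IsClosed (slice (D ∩ K) θ.1 θ.2.1 θ.2.2) := slice_closed (hDc.inter hK) _ _ _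
  have hdiff : volume (slice D θ.1 θ.2.1 θ.2.2 \ slice (D ∩ K) θ.1 θ.2.1 θ.2.2) = 0 := by
    have hfinB : volume (slice (D ∩ K) θ.1 θ.2.1 θ.2.2) ≠ ∞ :=
      ne_top_of_le_ne_top hfin ((measure_mono hsub).trans hle)
    rw [measure_sdiff hsub hBc.measurableSet.nullMeasurableSet hfinB, heq]
    exact tsub_eq_zero_of_le hs
  have hint : interior (slice D θ.1 θ.2.1 θ.2.2) ⊆ slice (D ∩ K) θ.1 θ.2.1 θ.2.2 := by
    have ho : IsOpen (interior (slice D θ.1 θ.2.1 θ.2.2) \ slice (D ∩ K) θ.1 θ.2.1 θ.2.2) :=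
      isOpen_interior.sdiff hBc
    have hz : volume (interior (slice D θ.1 θ.2.1 θ.2.2) \
        slice (D ∩ K) θ.1 θ.2.1 θ.2.2) = 0 :=
      measure_mono_null (sdiff_subset_sdiff_left interior_subset) hdiff
    have he := (ho.measure_eq_zero_iff volume).1 hz
    exact sdiff_eq_empty.1 he
  have hne := interior_slice hconv (x := θ.1) (e := θ.2.1) (f := θ.2.2) (by rw [heq]; exact hpos)
  have hcl := (slice_convex hconv θ.1 θ.2.1 θ.2.2).closure_interior_eq_closure_of_nonempty_interior
    hne
  intro p hp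
  have h1 : p ∈ closure (interior (slice D θ.1 θ.2.1 θ.2.2)) := by
    rw [hcl]; exact subset_closure hp
  have h2 : p ∈ slice (D ∩ K) θ.1 θ.2.1 θ.2.2 := (hBc.closure_subset_iff.2 hint) h1
  exact h2.2

lemma sig_fin {D : Set E3} (hD : IsCompact D) : sig D ≠ ∞ := by
  have h : ¬ HM D ∞ univ := by
    rintro ⟨θ, hθ, hs⟩
    rw [inter_univ] at hs
    have := (slice_compact hD θ.1 hθ.2).measure_lt_top (μ := volume)
    exact absurd hs (not_le.2 this)
  have := sig_lt hD isClosed_univ (by simp) h
  rw [inter_univ] at this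
  exact this.ne

lemma sig_pos {D : Set E3} (hint : (interior D).Nonempty) : 0 < sig D := by
  obtain ⟨y, hy⟩ := hint
  have ho : Ortho (EuclideanSpace.single 0 1) (EuclideanSpace.single 1 1) := by
    refine ⟨?_, ?_, ?_⟩ <;> simp [EuclideanSpace.inner_single_left]
  have hopen : IsOpen (slice (interior D) y (EuclideanSpace.single 0 1)
      (EuclideanSpace.single 1 1)) := isOpen_interior.preimage (by fun_prop)
  have hne : (slice (interior D) y (EuclideanSpace.single 0 1)
      (EuclideanSpace.single 1 1)).Nonempty := ⟨(0, 0), by simpa [slice] using hy⟩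
  have h1 := hopen.measure_pos volume hne
  have h2 : slice (interior D) y (EuclideanSpace.single 0 1) (EuclideanSpace.single 1 1) ⊆
      slice D y (EuclideanSpace.single 0 1) (EuclideanSpace.single 1 1) := by
    intro p hp
    exact (interior_subset (s := D)) hp
  exact h1.trans_le ((measure_mono h2).trans (le_sig D y ho))

lemma HM_univ {D : Set E3} (hD : IsCompact D) (hint : (interior D).Nonempty) :
    HM D (sig D) univ := by
  by_contra h
  have := sig_lt hD isClosed_univ (sig_pos hint) h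
  rw [inter_univ] at this
  exact lt_irrefl _ this

/-- Every vector orthogonal to the normal lies in the plane directions. -/
lemma in_span {e f u y : E3} (h : Ortho e f) (hu : u ≠ 0) (he : inner ℝ u e = 0)
    (hf : inner ℝ u f = 0) (hy : inner ℝ u y = 0) : ∃ p : ℝ × ℝ, y = p.1 • e + p.2 • f := by
  obtain ⟨a, b, c, d, hrel, hnz⟩ := dep e f u y
  have huu : 0 < inner ℝ u u := by
    rw [real_inner_self_eq_norm_sq]; positivity
  have hc : c = 0 := by
    have := congrArg (fun v => inner ℝ u v) hrel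
    simp only [inner_add_right, inner_smul_right, inner_zero_right, he, hf, hy] at this
    have h2 : c * inner ℝ u u = 0 := by linarith
    exact (mul_eq_zero.1 h2).resolve_right huu.ne'
  subst hc
  have hd : d ≠ 0 := by
    rintro rfl
    have ha := congrArg (fun v => inner ℝ e v) hrel
    have hb := congrArg (fun v => inner ℝ f v) hrel
    simp only [inner_add_right, inner_smul_right, inner_zero_right, h.ee, h.orth, h.ff,
      h.fe, zero_mul] at ha hb
    exact hnz ⟨by linarith, by linarith, rfl, rfl⟩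
  refine ⟨(-(a / d), -(b / d)), ?_⟩
  have h1 : d⁻¹ • (a • e + b • f + (0 : ℝ) • u + d • y) = 0 := by rw [hrel, smul_zero]
  have h2 : d⁻¹ • (a • e + b • f + (0 : ℝ) • u + d • y) = (a / d) • e + (b / d) • f + y := by
    simp only [smul_add, smul_smul, inv_mul_cancel₀ hd, one_smul, zero_smul, add_zero]
    congr 2
    · congr 1; field_simp
    · congr 1; field_simp
  rw [h2] at h1
  calc y = ((a / d) • e + (b / d) • f + y) + ((-(a / d)) • e + (-(b / d)) • f) := by module
    _ = (-(a / d)) • e + (-(b / d)) • f := by rw [h1, zero_add]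

lemma exists_perp (u : E3) : ∃ w : E3, w ≠ 0 ∧ inner ℝ w u = 0 := by
  have hfin : Module.finrank ℝ ℝ < Module.finrank ℝ E3 := by
    rw [finrank_euclideanSpace_fin]; simp
  obtain ⟨w, hw, hw0⟩ := Submodule.exists_mem_ne_zero_of_ne_bot
    (LinearMap.ker_ne_bot_of_finrank_lt (f := (innerₛₗ ℝ u : E3 →ₗ[ℝ] ℝ)) hfin)
  refine ⟨w, hw0, ?_⟩
  rw [real_inner_comm]
  exact hw

end Pool.Agent.R299.Mey
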