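import Pool.Agent.R299.Mey.Cut

open Set MeasureTheory Filter Topology
open scoped ENNReal

namespace Pool.Agent.R299.Mey

/-- The half-space {t ≤ ⟨x,u⟩} contains a maximal section. -/
def P (D : Set E3) (u : E3) (t : ℝ) : Prop := HM D (sig D) (HS u t)

section

variable {D : Set E3} (hD : IsCompact D) (hconv : Convex ℝ D) (hint : (interior D).Nonempty)

include hD

lemma P_closed : IsClosed {τ : E3 × ℝ | P D τ.1 τ.2} := by
  have hC : IsClosed {z : (E3 × ℝ) × E3 | z.1.2 ≤ inner ℝ z.2 z.1.1} :=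
    isClosed_le (by fun_prop) (by fun_prop)
  exact HM_closed hD hC (sig D)

include hint

lemma P_bound {R : ℝ} (hR : ∀ x ∈ D, ‖x‖ ≤ R) {u : E3} (hu : ‖u‖ = 1) {t : ℝ} (h : P D u t) :
    t ≤ R := by
  obtain ⟨θ, hθ, hs⟩ := h
  have h1 := (sig_pos hint).trans_le hs
  have hne : (slice (D ∩ HS u t) θ.1 θ.2.1 θ.2.2).Nonempty := by
    rw [nonempty_iff_ne_empty]
    intro h0
    rw [h0, measure_empty] at h1
    exact lt_irrefl _ h1
  obtain ⟨p, hp1, hp2⟩ := hne
  set y := θ.1 + p.1 • θ.2.1 + p.2 • θ.2.2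
  have h2 : t ≤ inner ℝ y u := hp2
  have h3 := real_inner_le_norm y u
  rw [hu, mul_one] at h3
  linarith [hR y hp1]

lemma P_low {R : ℝ} (hR : ∀ x ∈ D, ‖x‖ ≤ R) {u : E3} (hu : ‖u‖ = 1) : P D u (-R) := by
  obtain ⟨θ, hθ, hs⟩ := HM_univ hD hint
  refine ⟨θ, hθ, hs.trans (measure_mono ?_)⟩
  rintro p ⟨hp, _⟩
  refine ⟨hp, ?_⟩
  show -R ≤ inner ℝ _ u
  have h3 := abs_real_inner_le_norm (θ.1 + p.1 • θ.2.1 + p.2 • θ.2.2) u
  rw [hu, mul_one] at h3
  have := (abs_le.1 h3).1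
  linarith [hR _ hp]

/-- There is a direction with the highest maximal section. -/
lemma exists_top : ∃ (u₀ : E3) (c : ℝ), ‖u₀‖ = 1 ∧ P D u₀ c ∧
    ∀ (u : E3) (t : ℝ), ‖u‖ = 1 → P D u t → t ≤ c := by
  obtain ⟨R, hR⟩ : ∃ R : ℝ, ∀ x ∈ D, ‖x‖ ≤ R := hD.isBounded.exists_norm_le
  let T : Set (E3 × ℝ) := {τ | P D τ.1 τ.2} ∩ (Metric.sphere (0 : E3) 1 ×ˢ Icc (-R) R)
  have hT : IsCompact T :=
    ((isCompact_sphere _ _).prod isCompact_Icc).inter_left (P_closed hD)
  have hu1 : ‖(EuclideanSpace.single 0 1 : E3)‖ = 1 := by simp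
  have hR0 : -R ≤ R := by
    have h1 := P_bound hD hint hR hu1 (P_low hD hint hR hu1)
    exact h1
  have hne : T.Nonempty := ⟨(EuclideanSpace.single 0 1, -R), P_low hD hint hR hu1,
    by simp, ⟨le_rfl, hR0⟩⟩
  obtain ⟨⟨u₀, c⟩, ⟨hP, hS, hI⟩, hmax⟩ := hT.exists_isMaxOn hne continuous_snd.continuousOn
  refine ⟨u₀, c, by simpa using hS, hP, fun u t hu hPt => ?_⟩
  by_cases hlow : -R ≤ t
  · exact (isMaxOn_iff.1 hmax) (u, t) ⟨hPt, by simpa using hu,
      ⟨hlow, P_bound hD hint hR hu hPt⟩⟩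
  · exact (lt_of_lt_of_le (not_le.1 hlow) hI.1).le

include hconv

/-- Two maximal sections cannot be separated by a slab. -/
lemma no_slab {u : E3} {t r : ℝ} (hrt : r < t) (h1 : P D u t) (h2 : P D (-u) (-r)) : False := by
  have hpos := sig_pos hint
  have hfin := sig_fin hD
  obtain ⟨θ₁, hθ₁, hv₁, hK₁⟩ := full hconv hpos hfin (HS_closed _ _) hD.isClosed h1
  obtain ⟨θ₂, hθ₂, hv₂, hK₂⟩ := full hconv hpos hfin (HS_closed _ _) hD.isClosed h2
  have hs : 0 < (sig D).toReal := ENNReal.toReal_pos hpos.ne' hfin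
  have hS : sig D = ENNReal.ofReal (sig D).toReal := (ENNReal.ofReal_toReal hfin).symm
  rw [hS] at hv₁ hv₂
  obtain ⟨y, hyD, ⟨p, hp⟩, ⟨q, hq⟩⟩ := meyer hD hconv (s := (sig D).toReal)
    (fun x e f ho => by rw [← hS]; exact le_sig D x ho) hs hθ₁.2 hθ₂.2 hv₁ hv₂
  have a1 : y ∈ HS u t := by rw [hp]; exact hK₁ p (by rw [slice]; show _ ∈ D; rw [← hp]; exact hyD)
  have a2 : y ∈ HS (-u) (-r) := by
    rw [hq]; exact hK₂ q (by rw [slice]; show _ ∈ D; rw [← hq]; exact hyD)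
  have b1 : t ≤ inner ℝ y u := a1
  have b2 : -r ≤ inner ℝ y (-u) := a2
  rw [inner_neg_right] at b2
  linarith

/-- All maximal sections above the highest level contain the foot point q. -/
lemma contains_q {u₀ : E3} {c : ℝ} (hu₀ : ‖u₀‖ = 1)
    (htop : ∀ (u : E3) (t : ℝ), ‖u‖ = 1 → P D u t → t ≤ c)
    {θ : E3 × E3 × E3} (hθ : θ ∈ Fr D) (hv : volume (slice D θ.1 θ.2.1 θ.2.2) = sig D)
    (hK : ∀ p ∈ slice D θ.1 θ.2.1 θ.2.2, θ.1 + p.1 • θ.2.1 + p.2 • θ.2.2 ∈ HS u₀ c) :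
    ∃ p ∈ slice D θ.1 θ.2.1 θ.2.2, c • u₀ = θ.1 + p.1 • θ.2.1 + p.2 • θ.2.2 := by
  by_contra hcon
  push Not at hcon
  set q : E3 := c • u₀ with hq
  let S : Set E3 := (fun p : ℝ × ℝ => θ.1 + p.1 • θ.2.1 + p.2 • θ.2.2) ''
    slice D θ.1 θ.2.1 θ.2.2
  have hScomp : IsCompact S := (slice_compact hD θ.1 hθ.2).image (by fun_prop)
  have hSconv : Convex ℝ S := by
    rintro _ ⟨p, hp, rfl⟩ _ ⟨r, hr, rfl⟩ a b ha hb hab
    refine ⟨a • p + b • r, slice_convex hconv _ _ _ hp hr ha hb hab, ?_⟩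
    have hb' : b = 1 - a := by linarith
    subst hb'
    simp only [Prod.fst_add, Prod.snd_add, Prod.smul_fst, Prod.smul_snd, smul_eq_mul]
    module
  have hSne : S.Nonempty := ⟨_, (0, 0), by
    show θ.1 + (0 : ℝ) • θ.2.1 + (0 : ℝ) • θ.2.2 ∈ D
    simpa using hθ.1, rfl⟩
  obtain ⟨x₀, hx₀, hmin⟩ := exists_norm_eq_iInf_of_complete_convex hSne hScomp.isComplete hSconv q
  have hproj := (norm_eq_iInf_iff_real_inner_le_zero hSconv hx₀).1 hmin
  set d : E3 := x₀ - q with hd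
  have hd0 : d ≠ 0 := by
    intro h0
    have h1 : x₀ = q := sub_eq_zero.1 h0
    obtain ⟨p, hp, hpx⟩ := hx₀
    exact hcon p hp (by rw [← h1, ← hpx])
  have hdpos : 0 < ‖d‖ ^ 2 := by positivity
  set δ : ℝ := 1 / (1 + |c|) with hδ
  have hcabs := abs_nonneg c
  have hδ0 : 0 < δ := by positivity
  have hδc : |c| * δ < 1 := by
    rw [hδ, mul_one_div, div_lt_one (by positivity)]; linarith
  set v : E3 := u₀ + δ • d with hv'
  set g : ℝ := inner ℝ u₀ d with hg
  have huu : inner ℝ u₀ u₀ = (1 : ℝ) := by rw [real_inner_self_eq_norm_sq, hu₀]; norm_num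
  have hvsq : ‖v‖ ^ 2 = 1 + 2 * δ * g + δ ^ 2 * ‖d‖ ^ 2 := by
    rw [hv', norm_add_sq_real, hu₀, inner_smul_right, norm_smul, mul_pow, Real.norm_eq_abs,
      sq_abs, ← hg]
    ring
  set M : ℝ := c + δ * (c * g + ‖d‖ ^ 2) with hM
  have hlow : ∀ x ∈ S, M ≤ inner ℝ x v := by
    intro x hx
    obtain ⟨p, hp, hpx⟩ := id hx
    have h1 : c ≤ inner ℝ x u₀ := by
      have := hK p hp
      rw [← hpx]; exact this
    have h2 : inner ℝ (q - x₀) (x - x₀) ≤ (0 : ℝ) := hproj x hx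
    have h3 : c * g + ‖d‖ ^ 2 ≤ inner ℝ x d := by
      have e1 : inner ℝ x d = inner ℝ (x - x₀) d + inner ℝ q d + inner ℝ d d := by
        rw [← inner_add_left, ← inner_add_left]
        congr 1
        rw [hd]; abel
      have e2 : inner ℝ q d = c * g := by rw [hq, inner_smul_left, ← hg]; simp
      have e3 : inner ℝ (x - x₀) d = -inner ℝ (q - x₀) (x - x₀) := by
        have : d = -(q - x₀) := by rw [hd]; abel
        rw [this, inner_neg_right, real_inner_comm]
      rw [e1, e2, e3, real_inner_self_eq_norm_sq]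
      linarith
    rw [hM, hv', inner_add_right, inner_smul_right]
    nlinarith
  have hMv : c * ‖v‖ < M := by
    rcases le_or_gt 0 c with hc | hc
    · have h1 : ‖v‖ ≤ (1 + ‖v‖ ^ 2) / 2 := by nlinarith [sq_nonneg (‖v‖ - 1)]
      have h2 : c * ‖v‖ ≤ c * ((1 + ‖v‖ ^ 2) / 2) := mul_le_mul_of_nonneg_left h1 hc
      rw [hvsq] at h2
      rw [abs_of_nonneg hc] at hδc
      have h3 : c * δ * (δ * ‖d‖ ^ 2) < 1 * (δ * ‖d‖ ^ 2) :=
        mul_lt_mul_of_pos_right hδc (by positivity)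
      have h4 : 0 < δ * ‖d‖ ^ 2 := by positivity
      rw [hM]
      nlinarith
    · have h1 : 1 + δ * g ≤ ‖v‖ := by
        have h2 := real_inner_le_norm u₀ v
        rw [hu₀, one_mul] at h2
        have h3 : inner ℝ u₀ v = 1 + δ * g := by
          rw [hv', inner_add_right, inner_smul_right, huu, ← hg]
        linarith
      have h2 : c * ‖v‖ ≤ c * (1 + δ * g) := mul_le_mul_of_nonpos_left h1 hc.le
      have h4 : 0 < δ * ‖d‖ ^ 2 := by positivity
      rw [hM]
      nlinarith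
  have hv0 : v ≠ 0 := by
    intro h0
    obtain ⟨x, hx⟩ := hSne
    have h1 := hlow x hx
    rw [h0, inner_zero_right] at h1
    rw [h0, norm_zero, mul_zero] at hMv
    linarith
  have hvn : 0 < ‖v‖ := norm_pos_iff.2 hv0
  have hP : P D (‖v‖⁻¹ • v) (M / ‖v‖) := by
    refine ⟨θ, hθ, ?_⟩
    rw [← hv]
    refine measure_mono fun p hp => ⟨hp, ?_⟩
    show M / ‖v‖ ≤ inner ℝ _ (‖v‖⁻¹ • v)
    rw [inner_smul_right, div_eq_inv_mul]
    exact mul_le_mul_of_nonneg_left (hlow _ ⟨p, hp, rfl⟩) (inv_nonneg.2 hvn.le)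
  have h1 := htop _ _ (by rw [norm_smul, norm_inv, norm_norm, inv_mul_cancel₀ hvn.ne']) hP
  rw [div_le_iff₀ hvn] at h1
  linarith

/-- A point of D in the plane different from the foot point. -/
lemma exists_x1 {u₀ : E3} {c : ℝ} (h1 : P D u₀ c) (h2 : P D (-u₀) (-c)) (q : E3) :
    ∃ x₁ ∈ D, inner ℝ x₁ u₀ = c ∧ x₁ ≠ q := by
  have hpos := sig_pos hint
  have hfin := sig_fin hD
  by_cases hmeet : ∃ y ∈ interior D, inner ℝ y u₀ = c
  · obtain ⟨y, hy, hyc⟩ := hmeet
    by_cases hyq : y = q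
    · obtain ⟨w, hw0, hwu⟩ := exists_perp u₀
      have ht : Tendsto (fun ε : ℝ => y + ε • w) (𝓝[>] 0) (𝓝 y) := by
        have : Tendsto (fun ε : ℝ => y + ε • w) (𝓝 0) (𝓝 (y + (0 : ℝ) • w)) :=
          (continuous_const.add (continuous_id.smul continuous_const)).tendsto 0
        rw [zero_smul, add_zero] at this
        exact this.mono_left nhdsWithin_le_nhds
      obtain ⟨ε, hε1, hε2⟩ := ((ht.eventually (isOpen_interior.mem_nhds hy)).and
        self_mem_nhdsWithin).exists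
      refine ⟨y + ε • w, interior_subset hε1, ?_, ?_⟩
      · rw [inner_add_left, inner_smul_left, hwu, hyc]; simp
      · rw [← hyq]
        intro h
        have h3 : ε • w = 0 := by simpa using h
        rcases smul_eq_zero.1 h3 with h4 | h4
        · exact absurd h4 (ne_of_gt hε2)
        · exact hw0 h4
    · exact ⟨y, interior_subset hy, hyc, hyq⟩
  · push Not at hmeet
    have hcont : Continuous fun y : E3 => inner ℝ y u₀ := by fun_prop
    have hpre : IsPreconnected ((fun y : E3 => inner ℝ y u₀) '' interior D) :=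
      (hconv.interior.isPreconnected).image _ hcont.continuousOn
    have hcl : closure (interior D) = D := by
      rw [hconv.closure_interior_eq_closure_of_nonempty_interior hint, hD.isClosed.closure_eq]
    -- helper: a maximal section inside the plane has two points
    have hfinish : ∀ θ ∈ Fr D, volume (slice D θ.1 θ.2.1 θ.2.2) = sig D →
        (∀ p ∈ slice D θ.1 θ.2.1 θ.2.2,
          inner ℝ (θ.1 + p.1 • θ.2.1 + p.2 • θ.2.2) u₀ = c) →
        ∃ x₁ ∈ D, inner ℝ x₁ u₀ = c ∧ x₁ ≠ q := by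
      intro θ hθ hv hK
      obtain ⟨p, hp, r, hr, hpr⟩ := slice_pos_ne (by rw [hv]; exact hpos :
        0 < volume (slice D θ.1 θ.2.1 θ.2.2))
      by_cases hq : θ.1 + p.1 • θ.2.1 + p.2 • θ.2.2 = q
      · refine ⟨_, hr, hK r hr, ?_⟩
        intro h
        apply hpr
        have h3 : (θ.1 + p.1 • θ.2.1 + p.2 • θ.2.2) -
            (θ.1 + r.1 • θ.2.1 + r.2 • θ.2.2) = 0 := by rw [hq, h, sub_self]
        have h4 : (p.1 - r.1) • θ.2.1 + (p.2 - r.2) • θ.2.2 = 0 := by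
          rw [← h3]; module
        have h5 := congrArg (fun v => inner ℝ θ.2.1 v) h4
        have h6 := congrArg (fun v => inner ℝ θ.2.2 v) h4
        simp only [inner_add_right, inner_smul_right, inner_zero_right, hθ.2.ee, hθ.2.orth,
          hθ.2.ff, hθ.2.fe] at h5 h6
        exact Prod.ext (by linarith) (by linarith)
      · exact ⟨_, hp, hK p hp, hq⟩
    by_cases hside : ∃ y ∈ interior D, inner ℝ y u₀ < c
    · -- interior below the plane
      have hall : ∀ y ∈ interior D, inner ℝ y u₀ ≤ c := by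
        intro y hy
        by_contra hcon
        obtain ⟨y', hy', hlt⟩ := hside
        have := hpre.Icc_subset ⟨y', hy', rfl⟩ ⟨y, hy, rfl⟩ ⟨hlt.le, (not_le.1 hcon).le⟩
        obtain ⟨z, hz, hzc⟩ := this
        exact hmeet z hz hzc
      have hallD : ∀ y ∈ D, inner ℝ y u₀ ≤ c := by
        intro y hy
        rw [← hcl] at hy
        exact closure_minimal hall (isClosed_le hcont continuous_const) hy
      obtain ⟨θ, hθ, hv, hK⟩ := full hconv hpos hfin (HS_closed _ _) hD.isClosed h1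
      exact hfinish θ hθ hv fun p hp => le_antisymm (hallD _ hp) (hK p hp)
    · push Not at hside
      have hallD : ∀ y ∈ D, c ≤ inner ℝ y u₀ := by
        intro y hy
        rw [← hcl] at hy
        exact closure_minimal hside (isClosed_le continuous_const hcont) hy
      obtain ⟨θ, hθ, hv, hK⟩ := full hconv hpos hfin (HS_closed _ _) hD.isClosed h2
      refine hfinish θ hθ hv fun p hp => le_antisymm ?_ (hallD _ hp)
      have h3 : -c ≤ inner ℝ (θ.1 + p.1 • θ.2.1 + p.2 • θ.2.2) (-u₀) := hK p hp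
      rw [inner_neg_right] at h3
      linarith

end

end Pool.Agent.R299.Mey
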