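import Pool.Agent.R299.Mey.Transport

open Set MeasureTheory Filter Topology
open scoped ENNReal

namespace Pool.Agent.R299.Mey

/-- Three-dimensional Euclidean space. -/
abbrev E3 := EuclideanSpace ℝ (Fin 3)

/-- The section of K by the affine plane through x with directions e, f, in the coordinates
given by e and f. -/
def slice (K : Set E3) (x e f : E3) : Set (ℝ × ℝ) := {p | x + p.1 • e + p.2 • f ∈ K}

/-- (e, f) is an orthonormal pair. -/
structure Ortho (e f : E3) : Prop where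
  ne : ‖e‖ = 1
  nf : ‖f‖ = 1
  orth : inner ℝ e f = 0

/-- The largest area of a plane section. -/
noncomputable def sig (K : Set E3) : ℝ≥0∞ :=
  ⨆ (x : E3) (e : E3) (f : E3) (_ : Ortho e f), volume (slice K x e f)

lemma le_sig (K : Set E3) (x : E3) {e f : E3} (h : Ortho e f) :
    volume (slice K x e f) ≤ sig K :=
  le_iSup_of_le x (le_iSup_of_le e (le_iSup_of_le f (le_iSup_of_le h le_rfl)))

lemma sig_le {K : Set E3} {r : ℝ≥0∞} (h : ∀ x e f, Ortho e f → volume (slice K x e f) ≤ r) :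
    sig K ≤ r :=
  iSup_le fun x => iSup_le fun e => iSup_le fun f => iSup_le fun ho => h x e f ho

lemma Ortho.ee {e f : E3} (h : Ortho e f) : inner ℝ e e = 1 := by
  rw [real_inner_self_eq_norm_sq, h.ne]; norm_num

lemma Ortho.ff {e f : E3} (h : Ortho e f) : inner ℝ f f = 1 := by
  rw [real_inner_self_eq_norm_sq, h.nf]; norm_num

lemma Ortho.fe {e f : E3} (h : Ortho e f) : inner ℝ f e = 0 := by
  rw [real_inner_comm]; exact h.orth

/-- Affine change of coordinates in a plane. -/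
lemma reframe (K : Set E3) {x e f : E3} (h : Ortho e f) {a₀ b₀ a b c d : ℝ}
    (h' : Ortho (a • e + b • f) (c • e + d • f)) :
    volume (slice K (x + a₀ • e + b₀ • f) (a • e + b • f) (c • e + d • f)) =
      volume (slice K x e f) := by
  have e1 : a ^ 2 + b ^ 2 = 1 := by
    have := h'.ee
    simp only [inner_add_left, inner_add_right, inner_smul_left, inner_smul_right, h.ee, h.ff,
      h.orth, h.fe] at this
    simp at this
    nlinarith
  have e2 : c ^ 2 + d ^ 2 = 1 := by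
    have := h'.ff
    simp only [inner_add_left, inner_add_right, inner_smul_left, inner_smul_right, h.ee, h.ff,
      h.orth, h.fe] at this
    simp at this
    nlinarith
  have e3 : a * c + b * d = 0 := by
    have := h'.orth
    simp only [inner_add_left, inner_add_right, inner_smul_left, inner_smul_right, h.ee, h.ff,
      h.orth, h.fe] at this
    simp at this
    nlinarith
  have hdet : (a * d - b * c) ^ 2 = 1 := by
    have : (a * d - b * c) ^ 2 = (a ^ 2 + b ^ 2) * (c ^ 2 + d ^ 2) - (a * c + b * d) ^ 2 := by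
      ring
    rw [this, e1, e2, e3]; norm_num
  have habs : |a * d - b * c| = 1 := by
    have := abs_nonneg (a * d - b * c)
    rw [← sq_abs] at hdet
    nlinarith
  let L : (ℝ × ℝ) →ₗ[ℝ] (ℝ × ℝ) :=
    Matrix.toLin (Module.Basis.finTwoProd ℝ) (Module.Basis.finTwoProd ℝ) !![a, c; b, d]
  have hL : ∀ p, L p = (a * p.1 + c * p.2, b * p.1 + d * p.2) := fun p =>
    Matrix.toLin_finTwoProd_apply _ _ _ _ _
  have hLdet : LinearMap.det L = a * d - c * b := by
    rw [LinearMap.det_toLin, Matrix.det_fin_two_of]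
  have hLabs : |(LinearMap.det L)⁻¹| = 1 := by
    rw [hLdet, abs_inv, mul_comm c b, habs, inv_one]
  have hL0 : LinearMap.det L ≠ 0 := by
    intro h0
    rw [h0] at hLabs
    simp at hLabs
  have hset : slice K (x + a₀ • e + b₀ • f) (a • e + b • f) (c • e + d • f) =
      L ⁻¹' ((fun p => ((a₀, b₀) : ℝ × ℝ) + p) ⁻¹' (slice K x e f)) := by
    ext p
    simp only [slice, mem_ofPred_eq, mem_preimage, hL, Prod.fst_add, Prod.snd_add]
    have : x + a₀ • e + b₀ • f + p.1 • (a • e + b • f) + p.2 • (c • e + d • f) =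
        x + (a₀ + (a * p.1 + c * p.2)) • e + (b₀ + (b * p.1 + d * p.2)) • f := by
      module
    rw [this]
  rw [hset, Measure.addHaar_preimage_linearMap _ hL0, hLabs, ENNReal.ofReal_one, one_mul,
    measure_preimage_add]

lemma reframe' (K : Set E3) {x e f x' e' f' : E3} (h : Ortho e f) (h' : Ortho e' f')
    {a₀ b₀ a b c d : ℝ} (hx : x' = x + a₀ • e + b₀ • f) (he : e' = a • e + b • f)
    (hf : f' = c • e + d • f) : volume (slice K x' e' f') = volume (slice K x e f) := by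
  subst hx he hf
  exact reframe K h h'

lemma slice_convex {K : Set E3} (hK : Convex ℝ K) (x e f : E3) : Convex ℝ (slice K x e f) := by
  intro p hp q hq a b ha hb hab
  have h := hK hp hq ha hb hab
  have e1 : a • (x + p.1 • e + p.2 • f) + b • (x + q.1 • e + q.2 • f) =
      x + (a • p + b • q).1 • e + (a • p + b • q).2 • f := by
    have hb' : b = 1 - a := by linarith
    subst hb'
    simp only [Prod.fst_add, Prod.snd_add, Prod.smul_fst, Prod.smul_snd, smul_eq_mul]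
    module
  rw [e1] at h
  exact h

lemma slice_closed {K : Set E3} (hK : IsClosed K) (x e f : E3) : IsClosed (slice K x e f) :=
  hK.preimage (by fun_prop)

lemma coord_bound {x e f : E3} (h : Ortho e f) {p : ℝ × ℝ} {R : ℝ}
    (hR : ‖(x + p.1 • e + p.2 • f) - x‖ ≤ R) : |p.1| ≤ R ∧ |p.2| ≤ R := by
  have e0 : (x + p.1 • e + p.2 • f) - x = p.1 • e + p.2 • f := by module
  rw [e0] at hR
  have h1 : inner ℝ e (p.1 • e + p.2 • f) = p.1 := by
    rw [inner_add_right, inner_smul_right, inner_smul_right, h.ee, h.orth]; ring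
  have h2 : inner ℝ f (p.1 • e + p.2 • f) = p.2 := by
    rw [inner_add_right, inner_smul_right, inner_smul_right, h.ff, h.fe]; ring
  constructor
  · calc |p.1| = |inner ℝ e (p.1 • e + p.2 • f)| := by rw [h1]
      _ ≤ ‖e‖ * ‖p.1 • e + p.2 • f‖ := abs_real_inner_le_norm _ _
      _ ≤ R := by rw [h.ne, one_mul]; exact hR
  · calc |p.2| = |inner ℝ f (p.1 • e + p.2 • f)| := by rw [h2]
      _ ≤ ‖f‖ * ‖p.1 • e + p.2 • f‖ := abs_real_inner_le_norm _ _
      _ ≤ R := by rw [h.nf, one_mul]; exact hR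

lemma slice_compact {K : Set E3} (hK : IsCompact K) (x : E3) {e f : E3} (h : Ortho e f) :
    IsCompact (slice K x e f) := by
  obtain ⟨R, hR⟩ := (hK.isBounded.subset_closedBall x)
  refine (isCompact_Icc (a := ((-R, -R) : ℝ × ℝ)) (b := (R, R))).of_isClosed_subset
    (slice_closed hK.isClosed _ _ _) ?_
  intro p hp
  have h1 := hR hp
  rw [mem_closedBall_iff_norm] at h1
  have h2 := coord_bound h h1
  exact ⟨⟨(abs_le.1 h2.1).1, (abs_le.1 h2.2).1⟩, ⟨(abs_le.1 h2.1).2, (abs_le.1 h2.2).2⟩⟩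

/-- The compact set of frames based in D. -/
def Fr (D : Set E3) : Set (E3 × E3 × E3) := {θ | θ.1 ∈ D ∧ Ortho θ.2.1 θ.2.2}

lemma isCompact_Fr {D : Set E3} (hD : IsCompact D) : IsCompact (Fr D) := by
  have h1 : IsCompact (D ×ˢ (Metric.sphere (0 : E3) 1 ×ˢ Metric.sphere (0 : E3) 1)) :=
    hD.prod ((isCompact_sphere _ _).prod (isCompact_sphere _ _))
  refine h1.of_isClosed_subset ?_ ?_
  · have h2 : Fr D = {θ : E3 × E3 × E3 | θ.1 ∈ D} ∩ ({θ | ‖θ.2.1‖ = 1} ∩
        ({θ | ‖θ.2.2‖ = 1} ∩ {θ | inner ℝ θ.2.1 θ.2.2 = (0 : ℝ)})) := by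
      ext θ
      constructor
      · rintro ⟨h, ho⟩
        exact ⟨h, ho.ne, ho.nf, ho.orth⟩
      · rintro ⟨h, h1, h2, h3⟩
        exact ⟨h, ⟨h1, h2, h3⟩⟩
    rw [h2]
    refine (hD.isClosed.preimage continuous_fst).inter (IsClosed.inter ?_ (IsClosed.inter ?_ ?_))
    · exact isClosed_eq (by fun_prop) continuous_const
    · exact isClosed_eq (by fun_prop) continuous_const
    · exact isClosed_eq (by fun_prop) continuous_const
  · rintro θ ⟨h, ho⟩
    exact ⟨h, by simpa using ho.ne, by simpa using ho.nf⟩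

/-- Upper semicontinuity of the section areas. -/
lemma usc {T : Type*} [TopologicalSpace T] {D : Set E3} (hD : IsCompact D)
    {C : Set (T × E3)} (hC : IsClosed C) (τ₀ : T) (θ₀ : E3 × E3 × E3) {s : ℝ≥0∞}
    (h : volume (slice (D ∩ {y | (τ₀, y) ∈ C}) θ₀.1 θ₀.2.1 θ₀.2.2) < s) :
    ∀ᶠ z : T × (E3 × E3 × E3) in 𝓝 (τ₀, θ₀), z.2 ∈ Fr D →
      volume (slice (D ∩ {y | (z.1, y) ∈ C}) z.2.1 z.2.2.1 z.2.2.2) < s := by
  obtain ⟨U, hU, hUo, hUs⟩ := Set.exists_isOpen_lt_of_lt _ _ h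
  obtain ⟨R, hR⟩ : ∃ R : ℝ, ∀ y ∈ D, ∀ y' ∈ D, ‖y - y'‖ ≤ R := by
    obtain ⟨R, hR⟩ := Metric.isBounded_iff.1 hD.isBounded
    exact ⟨R, fun y hy y' hy' => by rw [← dist_eq_norm]; exact hR hy hy'⟩
  let Bx : Set (ℝ × ℝ) := Icc (-R, -R) (R, R)
  have hBU : IsCompact (Bx \ U) := isCompact_Icc.diff hUo
  let W : Set ((T × (E3 × E3 × E3)) × (ℝ × ℝ)) :=
    {z | z.1.2.1 + z.2.1 • z.1.2.2.1 + z.2.2 • z.1.2.2.2 ∈ D ∧
      (z.1.1, z.1.2.1 + z.2.1 • z.1.2.2.1 + z.2.2 • z.1.2.2.2) ∈ C}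
  have hW : IsClosed W := by
    refine IsClosed.inter (hD.isClosed.preimage ?_) (hC.preimage ?_)
    · fun_prop
    · fun_prop
  have hev : ∀ᶠ z : T × (E3 × E3 × E3) in 𝓝 (τ₀, θ₀), ∀ p ∈ Bx \ U, (z, p) ∉ W := by
    refine hBU.eventually_forall_of_forall_eventually fun p hp => ?_
    refine hW.isOpen_compl.mem_nhds ?_
    intro hpW
    exact hp.2 (hU hpW)
  filter_upwards [hev] with z hz hzD
  refine lt_of_le_of_lt (measure_mono ?_) hUs
  intro p hp
  by_contra hpU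
  refine hz p ⟨?_, hpU⟩ hp
  have h1 := coord_bound hzD.2 (hR _ hp.1 _ hzD.1)
  exact ⟨⟨(abs_le.1 h1.1).1, (abs_le.1 h1.2).1⟩, ⟨(abs_le.1 h1.1).2, (abs_le.1 h1.2).2⟩⟩

/-- K contains (the trace of D on) a section of area at least s. -/
def HM (D : Set E3) (s : ℝ≥0∞) (K : Set E3) : Prop :=
  ∃ θ ∈ Fr D, s ≤ volume (slice (D ∩ K) θ.1 θ.2.1 θ.2.2)

lemma HM_mono {D : Set E3} {s : ℝ≥0∞} {K K' : Set E3} (h : K ⊆ K') (hK : HM D s K) :
    HM D s K' := by
  obtain ⟨θ, hθ, hs⟩ := hK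
  exact ⟨θ, hθ, hs.trans (measure_mono fun p hp => ⟨hp.1, h hp.2⟩)⟩

/-- Closedness of HM in parameters. -/
lemma HM_closed {T : Type*} [TopologicalSpace T] {D : Set E3} (hD : IsCompact D)
    {C : Set (T × E3)} (hC : IsClosed C) (s : ℝ≥0∞) :
    IsClosed {τ : T | HM D s {y | (τ, y) ∈ C}} := by
  rw [← isOpen_compl_iff, isOpen_iff_mem_nhds]
  intro τ₀ hτ₀
  have hτ : ∀ θ ∈ Fr D, volume (slice (D ∩ {y | (τ₀, y) ∈ C}) θ.1 θ.2.1 θ.2.2) < s := by
    intro θ hθ
    by_contra hcon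
    exact hτ₀ ⟨θ, hθ, not_lt.1 hcon⟩
  have hev : ∀ᶠ τ in 𝓝 τ₀, ∀ θ ∈ Fr D, (θ ∈ Fr D →
      volume (slice (D ∩ {y | (τ, y) ∈ C}) θ.1 θ.2.1 θ.2.2) < s) :=
    (isCompact_Fr hD).eventually_forall_of_forall_eventually fun θ hθ =>
      usc hD hC τ₀ θ (hτ θ hθ)
  filter_upwards [hev] with τ hτ' hcon
  obtain ⟨θ, hθ, hs⟩ := hcon
  exact absurd hs (not_le.2 (hτ' θ hθ hθ))

/-- If K contains no section of area at least s then all sections of D ∩ K are uniformly
smaller. -/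
lemma sig_lt {D : Set E3} (hD : IsCompact D) {K : Set E3} (hK : IsClosed K) {s : ℝ≥0∞}
    (hs : 0 < s) (h : ¬ HM D s K) : sig (D ∩ K) < s := by
  rcases (D ∩ K).eq_empty_or_nonempty with hemp | hne
  · refine lt_of_le_of_lt (sig_le fun x e f _ => ?_) hs
    rw [hemp]
    simp [slice]
  have hFne : (Fr D).Nonempty := by
    obtain ⟨y, hy⟩ := hne
    refine ⟨(y, EuclideanSpace.single 0 1, EuclideanSpace.single 1 1), hy.1, ?_, ?_, ?_⟩ <;>
      simp [EuclideanSpace.inner_single_left]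
  have husc : UpperSemicontinuousOn
      (fun θ : E3 × E3 × E3 => volume (slice (D ∩ K) θ.1 θ.2.1 θ.2.2)) (Fr D) := by
    intro θ₀ _ r hr
    have hC : IsClosed {z : Unit × E3 | z.2 ∈ K} := hK.preimage continuous_snd
    have h1 := usc hD hC () θ₀ hr
    rw [nhds_prod_eq] at h1
    have h2 : Tendsto (fun θ : E3 × E3 × E3 => ((), θ)) (𝓝[Fr D] θ₀) (𝓝 () ×ˢ 𝓝 θ₀) :=
      Tendsto.prodMk tendsto_const_nhds (tendsto_id.mono_left nhdsWithin_le_nhds)
    filter_upwards [h2.eventually h1, self_mem_nhdsWithin] with θ hθ1 hθ2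
    exact hθ1 hθ2
  obtain ⟨θ, hθ, hmax⟩ := husc.exists_isMaxOn hFne (isCompact_Fr hD)
  have hlt : volume (slice (D ∩ K) θ.1 θ.2.1 θ.2.2) < s := by
    by_contra hcon
    exact h ⟨θ, hθ, not_lt.1 hcon⟩
  refine lt_of_le_of_lt (sig_le fun x e f ho => ?_) hlt
  rcases (slice (D ∩ K) x e f).eq_empty_or_nonempty with hemp | ⟨p, hp⟩
  · rw [hemp]; simp
  · have h1 : volume (slice (D ∩ K) (x + p.1 • e + p.2 • f) e f) =
        volume (slice (D ∩ K) x e f) :=
      reframe' (D ∩ K) ho ho (a₀ := p.1) (b₀ := p.2) (a := 1) (b := 0) (c := 0) (d := 1) rfl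
        (by simp) (by simp)
    rw [← h1]
    have h2 : ((x + p.1 • e + p.2 • f, e, f) : E3 × E3 × E3) ∈ Fr D := ⟨hp.1, ho⟩
    exact (isMaxOn_iff.1 hmax) (x + p.1 • e + p.2 • f, e, f) h2

end Pool.Agent.R299.Mey
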