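import Pool.Agent.R299.Mey.Frames

open Set MeasureTheory Filter Topology
open scoped ENNReal

namespace Pool.Agent.R299.Mey

/-- A nonnegative continuous excess must vanish. -/
lemma excess_zero {s : ℝ} {c : ℝ} (hc : 0 ≤ c) {φ : ℝ → ℝ}
    (hφ : ∀ m ∈ Ioo 0 s, 0 ≤ φ m) (hcont : ContinuousOn φ (Ioo 0 s))
    (h : ∫⁻ m in Ioo 0 s, ENNReal.ofReal (c + φ m) ≤ ENNReal.ofReal (c * s)) :
    ∀ m ∈ Ioo 0 s, φ m = 0 := by
  have h1 : ∫⁻ m in Ioo 0 s, ENNReal.ofReal (c + φ m) =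
      ENNReal.ofReal (c * s) + ∫⁻ m in Ioo 0 s, ENNReal.ofReal (φ m) := by
    have e1 : ∫⁻ m in Ioo 0 s, ENNReal.ofReal (c + φ m) =
        ∫⁻ m in Ioo 0 s, (ENNReal.ofReal c + ENNReal.ofReal (φ m)) := by
      refine setLIntegral_congr_fun measurableSet_Ioo fun m hm => ?_
      exact ENNReal.ofReal_add hc (hφ m hm)
    rw [e1, lintegral_add_left measurable_const, setLIntegral_const, Real.volume_Ioo, sub_zero,
      ← ENNReal.ofReal_mul hc]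
  rw [h1] at h
  have h2 : ∫⁻ m in Ioo 0 s, ENNReal.ofReal (φ m) = 0 := by
    have h3 : ENNReal.ofReal (c * s) + ∫⁻ m in Ioo 0 s, ENNReal.ofReal (φ m) ≤
        ENNReal.ofReal (c * s) + 0 := by rw [add_zero]; exact h
    exact le_antisymm ((ENNReal.add_le_add_iff_left ENNReal.ofReal_ne_top).1 h3) bot_le
  intro m₀ hm₀
  by_contra hne
  have hpos : 0 < φ m₀ := lt_of_le_of_ne (hφ m₀ hm₀) (Ne.symm hne)
  have hca : ContinuousAt φ m₀ := hcont.continuousAt (Ioo_mem_nhds hm₀.1 hm₀.2)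
  have hev : ∀ᶠ m in 𝓝 m₀, φ m₀ / 2 < φ m ∧ m ∈ Ioo 0 s :=
    (hca.eventually (lt_mem_nhds (by linarith))).and (Ioo_mem_nhds hm₀.1 hm₀.2)
  obtain ⟨ε, hε, hball⟩ := Metric.eventually_nhds_iff_ball.1 hev
  have h3 : ∫⁻ _m in Metric.ball m₀ ε, ENNReal.ofReal (φ m₀ / 2) ≤
      ∫⁻ m in Ioo 0 s, ENNReal.ofReal (φ m) := by
    calc ∫⁻ _m in Metric.ball m₀ ε, ENNReal.ofReal (φ m₀ / 2)
        ≤ ∫⁻ m in Metric.ball m₀ ε, ENNReal.ofReal (φ m) :=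
          setLIntegral_mono' Metric.isOpen_ball.measurableSet fun m hm =>
            ENNReal.ofReal_le_ofReal (hball m hm).1.le
      _ ≤ ∫⁻ m in Ioo 0 s, ENNReal.ofReal (φ m) :=
          lintegral_mono_set fun m hm => (hball m hm).2
  rw [h2, setLIntegral_const, Real.volume_ball, ← ENNReal.ofReal_mul (by linarith)] at h3
  have h4 : 0 < ENNReal.ofReal (φ m₀ / 2 * (2 * ε)) := ENNReal.ofReal_pos.2 (by positivity)
  exact absurd h3 (not_le.2 h4)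

/-- Transport data for a section. -/
structure Tr (s : ℝ) (D : Set E3) (x e z : E3) (r g lo : ℝ → ℝ) : Prop where
  cont : ContinuousOn g (Ioo 0 s)
  pos : ∀ m ∈ Ioo 0 s, 0 < g m
  der : ∀ m ∈ Ioo 0 s, HasDerivAt r (g m)⁻¹ m
  mem : ∀ m ∈ Ioo 0 s, ∀ y ∈ Icc (lo m) (lo m + g m), (r m, y) ∈ slice D x e z

lemma Tr.lo_mem {s : ℝ} {D : Set E3} {x e z : E3} {r g lo : ℝ → ℝ} (h : Tr s D x e z r g lo)
    {m : ℝ} (hm : m ∈ Ioo 0 s) : (r m, lo m) ∈ slice D x e z :=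
  h.mem m hm (lo m) ⟨le_rfl, by linarith [h.pos m hm]⟩

lemma exists_Tr {s : ℝ} (hs : 0 < s) {D : Set E3} (hD : IsCompact D) (hconv : Convex ℝ D)
    {x e z : E3} (ho : Ortho e z) (hvol : volume (slice D x e z) = ENNReal.ofReal s) :
    ∃ r g lo : ℝ → ℝ, Tr s D x e z r g lo := by
  obtain ⟨r, g, lo, hg, h⟩ := transport (slice_compact hD x ho) (slice_convex hconv x e z) hs hvol
  exact ⟨r, g, lo, hg, fun m hm => (h m hm).1, fun m hm => (h m hm).2.1,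
    fun m hm => (h m hm).2.2⟩

section

variable {s : ℝ} {D : Set E3} (hD : IsCompact D) (hconv : Convex ℝ D)
  (hmax : ∀ x e f : E3, Ortho e f → volume (slice D x e f) ≤ ENNReal.ofReal s)

include hD hconv hmax

/-- Interpolated sections. -/
lemma interp {O₁ e₁ O₂ e₂ z X e : E3} (ho : Ortho e z) {r₁ g₁ lo₁ r₂ g₂ lo₂ : ℝ → ℝ}
    (h₁ : Tr s D O₁ e₁ z r₁ g₁ lo₁) (h₂ : Tr s D O₂ e₂ z r₂ g₂ lo₂) (t σ σ' w : ℝ → ℝ)
    (ht : ∀ m ∈ Ioo 0 s, 0 ≤ t m ∧ t m ≤ 1)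
    (hσ : ∀ m ∈ Ioo 0 s, HasDerivAt σ (σ' m) m) (hσ' : ∀ m ∈ Ioo 0 s, 0 < σ' m)
    (hX : ∀ m ∈ Ioo 0 s, X + σ m • e =
      (1 - t m) • (O₁ + r₁ m • e₁) + t m • (O₂ + r₂ m • e₂))
    (hw : ∀ m ∈ Ioo 0 s, w m ≤ σ' m * ((1 - t m) * g₁ m + t m * g₂ m)) :
    ∫⁻ m in Ioo 0 s, ENNReal.ofReal (w m) ≤ ENNReal.ofReal s := by
  refine le_trans (swept (C := slice D X e z) (slice_closed hD.isClosed _ _ _).measurableSet
    σ σ' (fun m => (1 - t m) * g₁ m + t m * g₂ m) (fun m => (1 - t m) * lo₁ m + t m * lo₂ m) w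
    hσ hσ' ?_ hw) (hmax X e z ho)
  intro m hm y hy
  have hg₁ := h₁.pos m hm
  have hg₂ := h₂.pos m hm
  obtain ⟨ht0, ht1⟩ := ht m hm
  have hl : 0 < (1 - t m) * g₁ m + t m * g₂ m := by
    rcases ht0.eq_or_lt with h0 | h0
    · rw [← h0]; simpa using hg₁
    · have := mul_nonneg (by linarith : 0 ≤ 1 - t m) hg₁.le
      have := mul_pos h0 hg₂
      linarith
  set lam : ℝ := (y - ((1 - t m) * lo₁ m + t m * lo₂ m)) / ((1 - t m) * g₁ m + t m * g₂ m)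
    with hlam
  have hlam0 : 0 ≤ lam := div_nonneg (by linarith [hy.1]) hl.le
  have hlam1 : lam ≤ 1 := by rw [hlam, div_le_one hl]; linarith [hy.2]
  have hy' : y = (1 - t m) * (lo₁ m + lam * g₁ m) + t m * (lo₂ m + lam * g₂ m) := by
    have : lam * ((1 - t m) * g₁ m + t m * g₂ m) =
        y - ((1 - t m) * lo₁ m + t m * lo₂ m) := div_mul_cancel₀ _ hl.ne'
    linarith
  have m₁ := h₁.mem m hm (lo₁ m + lam * g₁ m)
    ⟨by nlinarith [mul_nonneg hlam0 hg₁.le], by nlinarith [mul_le_mul_of_nonneg_right hlam1 hg₁.le]⟩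
  have m₂ := h₂.mem m hm (lo₂ m + lam * g₂ m)
    ⟨by nlinarith [mul_nonneg hlam0 hg₂.le], by nlinarith [mul_le_mul_of_nonneg_right hlam1 hg₂.le]⟩
  have hc := hconv m₁ m₂ (by linarith : 0 ≤ 1 - t m) ht0 (by ring)
  show X + σ m • e + y • z ∈ D
  rw [hX m hm, hy']
  convert hc using 1
  module

omit hconv hmax in
lemma slice_bdd {x e z : E3} (ho : Ortho e z) : ∃ R : ℝ, ∀ p ∈ slice D x e z, |p.1| < R := by
  obtain ⟨R, hR⟩ := (slice_compact hD x ho).isBounded.subset_ball (0 : ℝ × ℝ)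
  refine ⟨R, fun p hp => ?_⟩
  have h := hR hp
  rw [mem_ball_zero_iff, Prod.norm_def] at h
  exact lt_of_le_of_lt (le_max_left _ _) h

omit hconv hmax in
lemma slice_low {x e z : E3} (ho : Ortho e z) (hpos : ∀ p ∈ slice D x e z, 0 < p.1) :
    ∃ ρ > 0, ∀ p ∈ slice D x e z, ρ < p.1 := by
  rcases (slice D x e z).eq_empty_or_nonempty with h | h
  · exact ⟨1, one_pos, by rw [h]; simp⟩
  · obtain ⟨p, hp, hmin⟩ := (slice_compact hD x ho).exists_isMinOn h continuous_fst.continuousOn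
    refine ⟨p.1 / 2, by linarith [hpos p hp], fun q hq => ?_⟩
    have h1 := (isMinOn_iff.1 hmin) q hq
    have h2 := hpos p hp
    linarith

/-- First variation inequality in the non-parallel case. -/
lemma firstVar {O e₁ e₂ z : E3} (ho₂ : Ortho e₂ z) {r₁ g₁ lo₁ r₂ g₂ lo₂ : ℝ → ℝ}
    (h₁ : Tr s D O e₁ z r₁ g₁ lo₁) (h₂ : Tr s D O e₂ z r₂ g₂ lo₂) {ρ : ℝ} (hρ : 0 < ρ)
    (hr₁ : ∀ m ∈ Ioo 0 s, ρ < r₁ m) (hr₂ : ∀ m ∈ Ioo 0 s, 0 < r₂ m) :
    ∫⁻ m in Ioo 0 s, ENNReal.ofReal (1 + 2 * ρ * ((√(r₂ m) - √(r₁ m)) / √(r₁ m) ^ 3)) ≤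
      ENNReal.ofReal s := by
  refine interp hD hconv hmax ho₂ (X := O + ρ • e₁) h₁ h₂ (fun m => 1 - ρ * (r₁ m)⁻¹)
    (fun m => r₂ m * (1 - ρ * (r₁ m)⁻¹))
    (fun m => (g₂ m)⁻¹ * (1 - ρ * (r₁ m)⁻¹) + r₂ m * -(ρ * (-(g₁ m)⁻¹ / r₁ m ^ 2))) _
    ?_ ?_ ?_ ?_ ?_
  · intro m hm
    have h := hr₁ m hm
    have hr0 : 0 < r₁ m := hρ.trans h
    have h1 : ρ * (r₁ m)⁻¹ ≤ 1 := by
      rw [← div_eq_mul_inv, div_le_one hr0]; exact h.le
    have h2 : 0 ≤ ρ * (r₁ m)⁻¹ := by positivity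
    constructor <;> linarith
  · intro m hm
    have hr0 : r₁ m ≠ 0 := (hρ.trans (hr₁ m hm)).ne'
    exact (h₂.der m hm).fun_mul ((((h₁.der m hm).fun_inv hr0).const_mul ρ).const_sub 1)
  · intro m hm
    have h := hr₁ m hm
    have hr0 : 0 < r₁ m := hρ.trans h
    have h1 : ρ * (r₁ m)⁻¹ < 1 := by
      rw [← div_eq_mul_inv, div_lt_one hr0]; exact h
    have hg₁ := h₁.pos m hm
    have hg₂ := h₂.pos m hm
    have hr2 := hr₂ m hm
    have h2 : 0 < (g₂ m)⁻¹ * (1 - ρ * (r₁ m)⁻¹) := mul_pos (inv_pos.2 hg₂) (by linarith)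
    have h3 : -(ρ * (-(g₁ m)⁻¹ / r₁ m ^ 2)) = ρ * ((g₁ m)⁻¹ / r₁ m ^ 2) := by ring
    rw [h3]
    have h4 : 0 < r₂ m * (ρ * ((g₁ m)⁻¹ / r₁ m ^ 2)) := by positivity
    linarith
  · intro m hm
    have hr0 : r₁ m ≠ 0 := (hρ.trans (hr₁ m hm)).ne'
    have e1 : ρ = (ρ * (r₁ m)⁻¹) * r₁ m := by field_simp
    have e2 : O + ρ • e₁ = O + ((ρ * (r₁ m)⁻¹) * r₁ m) • e₁ := by rw [← e1]
    rw [e2]
    module
  · intro m hm
    have h := hr₁ m hm
    have hr0 : 0 < r₁ m := hρ.trans h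
    have hr2 := hr₂ m hm
    have hg₁ := h₁.pos m hm
    have hg₂ := h₂.pos m hm
    obtain ⟨x, hx0, hx⟩ : ∃ x : ℝ, 0 < x ∧ r₁ m = x ^ 2 :=
      ⟨√(r₁ m), Real.sqrt_pos.2 hr0, (Real.sq_sqrt hr0.le).symm⟩
    obtain ⟨y, hy0, hy⟩ : ∃ y : ℝ, 0 < y ∧ r₂ m = y ^ 2 :=
      ⟨√(r₂ m), Real.sqrt_pos.2 hr2, (Real.sq_sqrt hr2.le).symm⟩
    have hsx : √(r₁ m) = x := by rw [hx, Real.sqrt_sq hx0.le]
    have hsy : √(r₂ m) = y := by rw [hy, Real.sqrt_sq hy0.le]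
    rw [hsx, hsy, hx, hy]
    set a : ℝ := ρ * (x ^ 2)⁻¹ with ha
    have ha0 : 0 < a := by positivity
    have ha1 : a < 1 := by
      rw [ha, ← div_eq_mul_inv, div_lt_one (by positivity), ← hx]; exact h
    set v : ℝ := y / x with hv
    have hv0 : 0 < v := by positivity
    have i1 : (g₁ m)⁻¹ * g₁ m = 1 := inv_mul_cancel₀ hg₁.ne'
    have i2 : (g₂ m)⁻¹ * g₂ m = 1 := inv_mul_cancel₀ hg₂.ne'
    have e1 : 2 * ρ * ((y - x) / x ^ 3) = 2 * a * (v - 1) := by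
      rw [ha, hv]; field_simp
    have e2 : y ^ 2 * -(ρ * (-(g₁ m)⁻¹ / (x ^ 2) ^ 2)) = a * v ^ 2 * (g₁ m)⁻¹ := by
      rw [ha, hv]; field_simp
    rw [e1, e2]
    have key : 2 * v ≤ g₁ m * (g₂ m)⁻¹ + v ^ 2 * (g₂ m * (g₁ m)⁻¹) := by
      have : g₁ m * (g₂ m)⁻¹ + v ^ 2 * (g₂ m * (g₁ m)⁻¹) =
          (g₁ m ^ 2 + v ^ 2 * g₂ m ^ 2) / (g₁ m * g₂ m) := by field_simp
      rw [this, le_div_iff₀ (by positivity)]
      nlinarith [sq_nonneg (g₁ m - v * g₂ m)]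
    have e3 : ((g₂ m)⁻¹ * (1 - a) + a * v ^ 2 * (g₁ m)⁻¹) *
        ((1 - (1 - a)) * g₁ m + (1 - a) * g₂ m) =
        (1 - a) ^ 2 * ((g₂ m)⁻¹ * g₂ m) + a ^ 2 * v ^ 2 * ((g₁ m)⁻¹ * g₁ m) +
          (1 - a) * a * (g₁ m * (g₂ m)⁻¹ + v ^ 2 * (g₂ m * (g₁ m)⁻¹)) := by ring
    rw [e3, i1, i2]
    have h5 : 0 < (1 - a) * a := mul_pos (by linarith) ha0
    nlinarith [mul_le_mul_of_nonneg_left key h5.le, sq_nonneg (a * (v - 1))]

/-- The non-parallel case. -/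
lemma caseB (hs : 0 < s) {O e₁ e₂ z : E3} (ho₁ : Ortho e₁ z) (ho₂ : Ortho e₂ z)
    (hne : inner ℝ e₁ e₂ < 1) (hv₁ : volume (slice D O e₁ z) = ENNReal.ofReal s)
    (hv₂ : volume (slice D O e₂ z) = ENNReal.ofReal s)
    (hp₁ : ∀ p ∈ slice D O e₁ z, 0 < p.1) (hp₂ : ∀ p ∈ slice D O e₂ z, 0 < p.1) : False := by
  obtain ⟨r₁, g₁, lo₁, h₁⟩ := exists_Tr hs hD hconv ho₁ hv₁
  obtain ⟨r₂, g₂, lo₂, h₂⟩ := exists_Tr hs hD hconv ho₂ hv₂
  obtain ⟨ρ₁, hρ₁, hl₁⟩ := slice_low hD ho₁ hp₁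
  obtain ⟨ρ₂, hρ₂, hl₂⟩ := slice_low hD ho₂ hp₂
  obtain ⟨R₁, hR₁⟩ := slice_bdd hD (x := O) ho₁
  obtain ⟨ρ, hρ, hρr₁, hρr₂⟩ : ∃ ρ > 0, (∀ m ∈ Ioo 0 s, ρ < r₁ m) ∧ ∀ m ∈ Ioo 0 s, ρ < r₂ m :=
    ⟨min ρ₁ ρ₂, lt_min hρ₁ hρ₂,
      fun m hm => lt_of_le_of_lt (min_le_left _ _) (hl₁ _ (h₁.lo_mem hm)),
      fun m hm => lt_of_le_of_lt (min_le_right _ _) (hl₂ _ (h₂.lo_mem hm))⟩
  have v₁ := firstVar hD hconv hmax ho₂ h₁ h₂ hρ hρr₁ (fun m hm => hρ.trans (hρr₂ m hm))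
  have v₂ := firstVar hD hconv hmax ho₁ h₂ h₁ hρ hρr₂ (fun m hm => hρ.trans (hρr₁ m hm))
  have c₁ : ContinuousOn (fun m => √(r₁ m)) (Ioo 0 s) := fun m hm =>
    (h₁.der m hm).continuousAt.sqrt.continuousWithinAt
  have c₂ : ContinuousOn (fun m => √(r₂ m)) (Ioo 0 s) := fun m hm =>
    (h₂.der m hm).continuousAt.sqrt.continuousWithinAt
  have p₁ : ∀ m ∈ Ioo 0 s, 0 < √(r₁ m) := fun m hm => Real.sqrt_pos.2 (hρ.trans (hρr₁ m hm))
  have p₂ : ∀ m ∈ Ioo 0 s, 0 < √(r₂ m) := fun m hm => Real.sqrt_pos.2 (hρ.trans (hρr₂ m hm))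
  have cA : ContinuousOn (fun m => (√(r₂ m) - √(r₁ m)) / √(r₁ m) ^ 3) (Ioo 0 s) :=
    (c₂.sub c₁).div (c₁.pow 3) fun m hm => (pow_pos (p₁ m hm) 3).ne'
  have cA' : ContinuousOn (fun m => (√(r₁ m) - √(r₂ m)) / √(r₂ m) ^ 3) (Ioo 0 s) :=
    (c₁.sub c₂).div (c₂.pow 3) fun m hm => (pow_pos (p₂ m hm) 3).ne'
  have hsum : ∫⁻ m in Ioo 0 s, ENNReal.ofReal (2 + 2 * ρ * ((√(r₂ m) - √(r₁ m)) / √(r₁ m) ^ 3 +
      (√(r₁ m) - √(r₂ m)) / √(r₂ m) ^ 3)) ≤ ENNReal.ofReal (2 * s) := by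
    calc _ ≤ ∫⁻ m in Ioo 0 s,
          (ENNReal.ofReal (1 + 2 * ρ * ((√(r₂ m) - √(r₁ m)) / √(r₁ m) ^ 3)) +
            ENNReal.ofReal (1 + 2 * ρ * ((√(r₁ m) - √(r₂ m)) / √(r₂ m) ^ 3))) := by
          refine lintegral_mono fun m => ?_
          refine le_trans (le_of_eq ?_) (ENNReal.ofReal_add_le)
          congr 1; ring
      _ = _ := lintegral_add_left' ((continuousOn_const.add
            (continuousOn_const.mul cA)).aemeasurable measurableSet_Ioo).ennreal_ofReal _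
      _ ≤ ENNReal.ofReal s + ENNReal.ofReal s := add_le_add v₁ v₂
      _ = ENNReal.ofReal (2 * s) := by
          rw [← ENNReal.ofReal_add hs.le hs.le]; congr 1; ring
  have hform : ∀ m ∈ Ioo 0 s, (√(r₂ m) - √(r₁ m)) / √(r₁ m) ^ 3 +
      (√(r₁ m) - √(r₂ m)) / √(r₂ m) ^ 3 = (√(r₂ m) - √(r₁ m)) ^ 2 *
        (√(r₂ m) ^ 2 + √(r₂ m) * √(r₁ m) + √(r₁ m) ^ 2) / (√(r₁ m) ^ 3 * √(r₂ m) ^ 3) := by
    intro m hm
    have := (p₁ m hm).ne'
    have := (p₂ m hm).ne'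
    field_simp
    ring
  have hz := excess_zero (c := 2) (by norm_num) (φ := fun m => 2 * ρ *
    ((√(r₂ m) - √(r₁ m)) / √(r₁ m) ^ 3 + (√(r₁ m) - √(r₂ m)) / √(r₂ m) ^ 3)) (fun m hm => by
      simp only [hform m hm]
      have := p₁ m hm
      have := p₂ m hm
      positivity) (continuousOn_const.mul (cA.add cA')) hsum
  have hreq : ∀ m ∈ Ioo 0 s, r₂ m = r₁ m := by
    intro m hm
    have h := hz m hm
    simp only [hform m hm] at h
    have q₁ := p₁ m hm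
    have q₂ := p₂ m hm
    have h1 : √(r₂ m) = √(r₁ m) := by
      by_contra hcon
      have h2 : 0 < (√(r₂ m) - √(r₁ m)) ^ 2 := by
        have : √(r₂ m) - √(r₁ m) ≠ 0 := sub_ne_zero.2 hcon
        positivity
      have h3 : 0 < 2 * ρ * ((√(r₂ m) - √(r₁ m)) ^ 2 *
        (√(r₂ m) ^ 2 + √(r₂ m) * √(r₁ m) + √(r₁ m) ^ 2) / (√(r₁ m) ^ 3 * √(r₂ m) ^ 3)) := by
        positivity
      linarith
    have h2 := (Real.sqrt_inj (hρ.trans (hρr₂ m hm)).le (hρ.trans (hρr₁ m hm)).le).1 h1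
    exact h2
  have hgeq : ∀ m ∈ Ioo 0 s, g₂ m = g₁ m := by
    intro m hm
    have hev : r₂ =ᶠ[𝓝 m] r₁ := by
      filter_upwards [Ioo_mem_nhds hm.1 hm.2] with m' hm'
      exact hreq m' hm'
    have := ((h₂.der m hm).congr_of_eventuallyEq hev.symm).unique (h₁.der m hm)
    exact inv_injective this
  -- the secant plane
  obtain ⟨R, hR, hRr⟩ : ∃ R, ρ < R ∧ ∀ m ∈ Ioo 0 s, r₁ m < R := by
    refine ⟨max R₁ (ρ + 1), lt_of_lt_of_le (by linarith) (le_max_right _ _), fun m hm => ?_⟩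
    exact lt_of_lt_of_le (lt_of_abs_lt (hR₁ _ (h₁.lo_mem hm))) (le_max_left _ _)
  have hR0 : 0 < R := hρ.trans hR
  have hd : 0 < R - ρ := by linarith
  set w : E3 := R • e₂ - ρ • e₁ with hw
  set L : ℝ := ‖w‖ with hL
  have hLsq : L ^ 2 = R ^ 2 + ρ ^ 2 - 2 * (R * ρ) * inner ℝ e₁ e₂ := by
    rw [hL, ← real_inner_self_eq_norm_sq, hw]
    simp only [inner_sub_left, inner_sub_right, inner_smul_left, inner_smul_right, ho₁.ee, ho₂.ee,
      real_inner_comm e₁ e₂]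
    simp
    ring
  have hLgt : R - ρ < L := by
    have h1 : (R - ρ) ^ 2 < L ^ 2 := by
      rw [hLsq]
      have : 0 < R * ρ := mul_pos hR0 hρ
      nlinarith
    exact lt_of_pow_lt_pow_left₀ 2 (norm_nonneg _) h1
  have hL0 : 0 < L := hd.trans hLgt
  have hoL : Ortho (L⁻¹ • w) z := by
    refine ⟨?_, ho₁.nf, ?_⟩
    · rw [norm_smul, norm_inv, Real.norm_eq_abs, abs_of_pos hL0, ← hL, inv_mul_cancel₀ hL0.ne']
    · rw [hw, inner_smul_left, inner_sub_left, inner_smul_left, inner_smul_left, ho₁.orth,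
        ho₂.orth]
      simp
  have hfin := interp hD hconv hmax hoL (X := O + ρ • e₁) h₁ h₂
    (fun m => R * (r₁ m - ρ) / (r₁ m * (R - ρ))) (fun m => L / (R - ρ) * (r₁ m - ρ))
    (fun m => L / (R - ρ) * (g₁ m)⁻¹) (fun _ => L / (R - ρ)) ?_ ?_ ?_ ?_ ?_
  · rw [setLIntegral_const, Real.volume_Ioo, sub_zero, ← ENNReal.ofReal_mul (by positivity),
      ENNReal.ofReal_le_ofReal_iff hs.le] at hfin
    have h1 : 1 < L / (R - ρ) := (one_lt_div hd).2 hLgt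
    nlinarith
  · intro m hm
    have h1 := hρr₁ m hm
    have h2 := hRr m hm
    have h0 : 0 < r₁ m := hρ.trans h1
    refine ⟨div_nonneg (mul_nonneg hR0.le (by linarith)) (mul_nonneg h0.le hd.le), ?_⟩
    rw [div_le_one (mul_pos h0 hd)]
    nlinarith
  · intro m hm
    exact ((h₁.der m hm).sub_const ρ).const_mul _
  · intro m hm
    have := h₁.pos m hm
    positivity
  · intro m hm
    have h0 : r₁ m ≠ 0 := (hρ.trans (hρr₁ m hm)).ne'
    have hd0 : R - ρ ≠ 0 := hd.ne'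
    have hL0' : L ≠ 0 := hL0.ne'
    rw [hreq m hm]
    have e1 : (L / (R - ρ) * (r₁ m - ρ)) • (L⁻¹ • w) =
        ((r₁ m - ρ) / (R - ρ) * R) • e₂ - ((r₁ m - ρ) / (R - ρ) * ρ) • e₁ := by
      rw [smul_smul, hw, smul_sub, smul_smul, smul_smul]
      congr 2
      · field_simp
      · field_simp
    rw [e1]
    have e2 : (1 - R * (r₁ m - ρ) / (r₁ m * (R - ρ))) * r₁ m =
        ρ - (r₁ m - ρ) / (R - ρ) * ρ := by
      field_simp
      ring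
    have e3 : R * (r₁ m - ρ) / (r₁ m * (R - ρ)) * r₁ m = (r₁ m - ρ) / (R - ρ) * R := by
      field_simp
    have e4 : (1 - R * (r₁ m - ρ) / (r₁ m * (R - ρ))) • (O + r₁ m • e₁) +
        (R * (r₁ m - ρ) / (r₁ m * (R - ρ))) • (O + r₁ m • e₂) =
        O + ((1 - R * (r₁ m - ρ) / (r₁ m * (R - ρ))) * r₁ m) • e₁ +
        (R * (r₁ m - ρ) / (r₁ m * (R - ρ)) * r₁ m) • e₂ := by module
    rw [e4, e2, e3]
    module
  · intro m hm
    have hg := (h₁.pos m hm).ne'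
    rw [hgeq m hm]
    apply le_of_eq
    have hd0 : R - ρ ≠ 0 := hd.ne'
    have : (1 - R * (r₁ m - ρ) / (r₁ m * (R - ρ))) * g₁ m +
        R * (r₁ m - ρ) / (r₁ m * (R - ρ)) * g₁ m = g₁ m := by ring
    rw [this, mul_assoc, inv_mul_cancel₀ hg, mul_one]

/-- The secant plane in the parallel case. -/
lemma caseA2 (hs : 0 < s) {O e z n : E3} (ho : Ortho e z) (hn : ‖n‖ = 1)
    (hen : inner ℝ e n = 0) (hzn : inner ℝ n z = 0) {h : ℝ} (hh : h ≠ 0)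
    {r₁ g₁ lo₁ r₂ g₂ lo₂ : ℝ → ℝ} (h₁ : Tr s D O e z r₁ g₁ lo₁)
    (h₂ : Tr s D (O + h • n) e z r₂ g₂ lo₂) {k : ℝ} (hk : 0 ≤ k)
    (hr : ∀ m ∈ Ioo 0 s, r₂ m = r₁ m + k) (hg : ∀ m ∈ Ioo 0 s, g₂ m = g₁ m) : False := by
  obtain ⟨R₁, hR₁⟩ := slice_bdd hD (x := O) ho
  obtain ⟨R₂, hR₂⟩ := slice_bdd hD (x := O + h • n) ho
  set ρ₁ : ℝ := -R₁ with hρ₁
  set ρ₂ : ℝ := R₂ with hρ₂
  have hl : ∀ m ∈ Ioo 0 s, ρ₁ < r₁ m := fun m hm => neg_lt_of_abs_lt (hR₁ _ (h₁.lo_mem hm))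
  have hu : ∀ m ∈ Ioo 0 s, r₁ m + k < ρ₂ := fun m hm => by
    rw [← hr m hm]; exact lt_of_abs_lt (hR₂ _ (h₂.lo_mem hm))
  have hmid : s / 2 ∈ Ioo 0 s := ⟨by linarith, by linarith⟩
  set R : ℝ := ρ₂ - ρ₁ with hR
  have hRk : k < R := by
    have a1 := hl _ hmid
    have a2 := hu _ hmid
    linarith
  have hd : 0 < R - k := by linarith
  have hR0 : 0 < R := by linarith
  set w : E3 := R • e + h • n with hw
  set L : ℝ := ‖w‖ with hL
  have hLsq : L ^ 2 = R ^ 2 + h ^ 2 := by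
    rw [hL, ← real_inner_self_eq_norm_sq, hw]
    have hnn : inner ℝ n n = (1 : ℝ) := by rw [real_inner_self_eq_norm_sq, hn]; norm_num
    have hne : inner ℝ n e = (0 : ℝ) := by rw [real_inner_comm]; exact hen
    simp only [inner_add_left, inner_add_right, inner_smul_left, inner_smul_right, ho.ee, hnn,
      hen, hne]
    simp
    ring
  have hLgt : R < L := by
    have h1 : R ^ 2 < L ^ 2 := by
      rw [hLsq]
      have : 0 < h ^ 2 := by positivity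
      linarith
    exact lt_of_pow_lt_pow_left₀ 2 (norm_nonneg _) h1
  have hL0 : 0 < L := hR0.trans hLgt
  have hoL : Ortho (L⁻¹ • w) z := by
    refine ⟨?_, ho.nf, ?_⟩
    · rw [norm_smul, norm_inv, Real.norm_eq_abs, abs_of_pos hL0, ← hL, inv_mul_cancel₀ hL0.ne']
    · rw [hw, inner_smul_left, inner_add_left, inner_smul_left, inner_smul_left, ho.orth, hzn]
      simp
  have hfin := interp hD hconv hmax hoL (X := O + ρ₁ • e) h₁ h₂
    (fun m => (r₁ m - ρ₁) / (R - k)) (fun m => L / (R - k) * (r₁ m - ρ₁))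
    (fun m => L / (R - k) * (g₁ m)⁻¹) (fun _ => L / (R - k)) ?_ ?_ ?_ ?_ ?_
  · rw [setLIntegral_const, Real.volume_Ioo, sub_zero, ← ENNReal.ofReal_mul (by positivity),
      ENNReal.ofReal_le_ofReal_iff hs.le] at hfin
    have h1 : 1 < L / (R - k) := (one_lt_div hd).2 (by linarith)
    nlinarith
  · intro m hm
    have a1 := hl m hm
    have a2 := hu m hm
    refine ⟨div_nonneg (by linarith) hd.le, ?_⟩
    rw [div_le_one hd]
    linarith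
  · intro m hm
    exact ((h₁.der m hm).sub_const ρ₁).const_mul _
  · intro m hm
    have := h₁.pos m hm
    positivity
  · intro m hm
    have hd0 : R - k ≠ 0 := hd.ne'
    have hL0' : L ≠ 0 := hL0.ne'
    rw [hr m hm]
    set t : ℝ := (r₁ m - ρ₁) / (R - k) with ht
    have ht' : t * (R - k) = r₁ m - ρ₁ := div_mul_cancel₀ _ hd0
    have e1 : (L / (R - k) * (r₁ m - ρ₁)) • (L⁻¹ • w) = (t * R) • e + (t * h) • n := by
      rw [smul_smul, hw, smul_add, smul_smul, smul_smul]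
      congr 2
      · rw [ht]; field_simp
      · rw [ht]; field_simp
    rw [e1]
    have e2 : (1 - t) • (O + r₁ m • e) + t • (O + h • n + (r₁ m + k) • e) =
        O + (r₁ m + t * k) • e + (t * h) • n := by module
    rw [e2]
    have e3 : r₁ m + t * k = ρ₁ + t * R := by linarith
    rw [e3]
    module
  · intro m hm
    have hg' := (h₁.pos m hm).ne'
    rw [hg m hm]
    apply le_of_eq
    have : (1 - (r₁ m - ρ₁) / (R - k)) * g₁ m + (r₁ m - ρ₁) / (R - k) * g₁ m = g₁ m := by ring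
    rw [this, mul_assoc, inv_mul_cancel₀ hg', mul_one]

/-- The parallel case. -/
lemma caseA (hs : 0 < s) {O e z n : E3} (ho : Ortho e z) (hn : ‖n‖ = 1)
    (hen : inner ℝ e n = 0) (hzn : inner ℝ n z = 0) {h : ℝ} (hh : h ≠ 0)
    (hv₁ : volume (slice D O e z) = ENNReal.ofReal s)
    (hv₂ : volume (slice D (O + h • n) e z) = ENNReal.ofReal s) : False := by
  obtain ⟨r₁, g₁, lo₁, h₁⟩ := exists_Tr hs hD hconv ho hv₁
  obtain ⟨r₂, g₂, lo₂, h₂⟩ := exists_Tr hs hD hconv ho hv₂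
  have hmidp := interp hD hconv hmax ho (X := O + (h / 2) • n) h₁ h₂ (fun _ => 1 / 2)
    (fun m => 1 / 2 * (r₁ m + r₂ m)) (fun m => 1 / 2 * ((g₁ m)⁻¹ + (g₂ m)⁻¹))
    (fun m => 1 + (g₁ m - g₂ m) ^ 2 / (4 * (g₁ m * g₂ m))) ?_ ?_ ?_ ?_ ?_
  · have hz := excess_zero (c := 1) (by norm_num)
      (φ := fun m => (g₁ m - g₂ m) ^ 2 / (4 * (g₁ m * g₂ m))) (fun m hm => by
        have := h₁.pos m hm
        have := h₂.pos m hm
        positivity) (((h₁.cont.sub h₂.cont).pow 2).div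
          (continuousOn_const.mul (h₁.cont.mul h₂.cont)) fun m hm => by
            have := h₁.pos m hm
            have := h₂.pos m hm
            show (4 : ℝ) * (g₁ m * g₂ m) ≠ 0
            positivity) (by rw [one_mul]; exact hmidp)
    have hgeq : ∀ m ∈ Ioo 0 s, g₂ m = g₁ m := by
      intro m hm
      have h3 := hz m hm
      have p₁ := h₁.pos m hm
      have p₂ := h₂.pos m hm
      rw [div_eq_zero_iff] at h3
      rcases h3 with h3 | h3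
      · have := pow_eq_zero_iff (two_ne_zero) |>.1 h3
        linarith
      · have : 0 < 4 * (g₁ m * g₂ m) := by positivity
        linarith
    -- the difference of the positions is constant
    have hmid : s / 2 ∈ Ioo 0 s := ⟨by linarith, by linarith⟩
    have hconst : ∀ m ∈ Ioo 0 s, r₂ m = r₁ m + (r₂ (s / 2) - r₁ (s / 2)) := by
      intro m hm
      have hder : ∀ m ∈ Ioo 0 s, HasDerivAt (fun m => r₂ m - r₁ m) 0 m := by
        intro m hm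
        have := (h₂.der m hm).fun_sub (h₁.der m hm)
        rwa [hgeq m hm, sub_self] at this
      have := (isOpen_Ioo (a := (0 : ℝ)) (b := s)).is_const_of_deriv_eq_zero
        (isPreconnected_Ioo) (f := fun m => r₂ m - r₁ m)
        (fun m hm => (hder m hm).differentiableAt.differentiableWithinAt)
        (fun m hm => (hder m hm).deriv) hm hmid
      linarith
    rcases le_total 0 (r₂ (s / 2) - r₁ (s / 2)) with hk | hk
    · exact caseA2 hD hconv hmax hs ho hn hen hzn hh h₁ h₂ hk hconst hgeq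
    · have h₁' : Tr s D ((O + h • n) + (-h) • n) e z r₁ g₁ lo₁ := by
        have : (O + h • n) + (-h) • n = O := by module
        rw [this]; exact h₁
      exact caseA2 hD hconv hmax hs ho hn hen hzn (neg_ne_zero.2 hh) h₂ h₁'
        (k := -(r₂ (s / 2) - r₁ (s / 2))) (by linarith)
        (fun m hm => by rw [hconst m hm]; ring) (fun m hm => (hgeq m hm).symm)
  · intro m _
    norm_num
  · intro m hm
    exact ((h₁.der m hm).fun_add (h₂.der m hm)).const_mul _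
  · intro m hm
    have := h₁.pos m hm
    have := h₂.pos m hm
    positivity
  · intro m _
    module
  · intro m hm
    have := h₁.pos m hm
    have := h₂.pos m hm
    apply le_of_eq
    field_simp
    ring

end

end Pool.Agent.R299.Mey
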