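import Pool.Agent.R299.Mey.Meyer

open Set MeasureTheory Filter Topology
open scoped ENNReal

namespace Pool.Agent.R299.Mey

/-- The affine plane through x with directions e and f. -/
def Pl (x e f : E3) : Set E3 := {y | ∃ p : ℝ × ℝ, y = x + p.1 • e + p.2 • f}

lemma Pl_sub {x e f x' e' f' : E3} {a₀ b₀ a b c d : ℝ} (hx : x' = x + a₀ • e + b₀ • f)
    (he : e' = a • e + b • f) (hf : f' = c • e + d • f) : Pl x' e' f' ⊆ Pl x e f := by
  rintro _ ⟨p, rfl⟩
  refine ⟨(a₀ + a * p.1 + c * p.2, b₀ + b * p.1 + d * p.2), ?_⟩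
  rw [hx, he, hf]
  module

lemma dep (v₁ v₂ v₃ v₄ : E3) : ∃ a b c d : ℝ, a • v₁ + b • v₂ + c • v₃ + d • v₄ = 0 ∧
    ¬ (a = 0 ∧ b = 0 ∧ c = 0 ∧ d = 0) := by
  let L : (ℝ × ℝ × ℝ × ℝ) →ₗ[ℝ] E3 :=
    (LinearMap.toSpanSingleton ℝ E3 v₁).coprod ((LinearMap.toSpanSingleton ℝ E3 v₂).coprod
      ((LinearMap.toSpanSingleton ℝ E3 v₃).coprod (LinearMap.toSpanSingleton ℝ E3 v₄)))
  have hfin : Module.finrank ℝ E3 < Module.finrank ℝ (ℝ × ℝ × ℝ × ℝ) := by
    rw [finrank_euclideanSpace_fin]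
    simp [Module.finrank_prod]
  obtain ⟨⟨a, b, c, d⟩, hq, hq0⟩ := Submodule.exists_mem_ne_zero_of_ne_bot
    (LinearMap.ker_ne_bot_of_finrank_lt (f := L) hfin)
  refine ⟨a, b, c, d, ?_, ?_⟩
  · have h : L (a, b, c, d) = 0 := hq
    simp only [L, LinearMap.coprod_apply, LinearMap.toSpanSingleton_apply] at h
    rw [← h]
    module
  · rintro ⟨rfl, rfl, rfl, rfl⟩
    exact hq0 rfl

lemma Ortho.smul {e f : E3} (h : Ortho e f) {ε : ℝ} (hε : ε = 1 ∨ ε = -1) :
    Ortho (ε • e) f := by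
  refine ⟨?_, h.nf, ?_⟩
  · rw [norm_smul, h.ne]
    rcases hε with rfl | rfl <;> simp
  · rw [inner_smul_left, h.orth]; simp

lemma sign_choice {D : Set E3} (hconv : Convex ℝ D) {O e z : E3}
    (h0 : ∀ p ∈ slice D O e z, p.1 ≠ 0) :
    ∃ ε : ℝ, (ε = 1 ∨ ε = -1) ∧ ∀ p ∈ slice D O (ε • e) z, 0 < p.1 := by
  by_cases hall : ∀ p ∈ slice D O e z, 0 < p.1
  · exact ⟨1, Or.inl rfl, by rw [one_smul]; exact hall⟩
  · refine ⟨-1, Or.inr rfl, ?_⟩
    push Not at hall
    obtain ⟨p, hp, hp0⟩ := hall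
    have hp0' : p.1 < 0 := lt_of_le_of_ne hp0 (h0 p hp)
    intro q hq
    have hq' : (-q.1, q.2) ∈ slice D O e z := by
      have : O + q.1 • ((-1 : ℝ) • e) + q.2 • z = O + (-q.1) • e + q.2 • z := by module
      have hq1 : O + q.1 • ((-1 : ℝ) • e) + q.2 • z ∈ D := hq
      rw [this] at hq1
      exact hq1
    by_contra hcon
    have hq1 : 0 < -q.1 := by
      have h1 := h0 _ hq'
      simp only at h1
      have h2 : q.1 ≤ 0 := not_lt.1 hcon
      have h3 : 0 ≤ -q.1 := by linarith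
      exact lt_of_le_of_ne h3 (Ne.symm h1)
    -- a convex combination has vanishing first coordinate
    have hd : 0 < -q.1 - p.1 := by linarith
    have hc := slice_convex hconv O e z hp hq'
      (a := -q.1 / (-q.1 - p.1)) (b := -p.1 / (-q.1 - p.1))
      (div_nonneg hq1.le hd.le) (div_nonneg (by linarith) hd.le) (by field_simp; ring)
    refine h0 _ hc ?_
    simp only [Prod.fst_add, Prod.smul_fst, smul_eq_mul]
    field_simp
    ring

section

variable {s : ℝ} {D : Set E3} (hD : IsCompact D) (hconv : Convex ℝ D)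
  (hmax : ∀ x e f : E3, Ortho e f → volume (slice D x e f) ≤ ENNReal.ofReal s)

include hD hconv hmax

lemma meyer_z (hs : 0 < s) {x₁ e₁ x₂ e₂ z : E3} (ho₁ : Ortho e₁ z) (ho₂ : Ortho e₂ z)
    (hv₁ : volume (slice D x₁ e₁ z) = ENNReal.ofReal s)
    (hv₂ : volume (slice D x₂ e₂ z) = ENNReal.ofReal s)
    (hdis : ∀ y ∈ D, y ∈ Pl x₁ e₁ z → y ∈ Pl x₂ e₂ z → False) : False := by
  by_cases hpar : ∃ ε : ℝ, (ε = 1 ∨ ε = -1) ∧ e₁ = ε • e₂
  · obtain ⟨ε, hε, he⟩ := hpar
    have hε2 : ε * ε = 1 := by rcases hε with rfl | rfl <;> norm_num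
    have he' : e₂ = ε • e₁ := by rw [he, smul_smul, hε2, one_smul]
    set d : E3 := x₂ - x₁ with hd
    set α : ℝ := inner ℝ e₁ d with hα
    set β : ℝ := inner ℝ z d with hβ
    set y : E3 := d - α • e₁ - β • z with hy
    have hx : x₁ + y = x₂ + (-(α * ε)) • e₂ + (-β) • z := by
      rw [hy, hd, he]
      have : (-(α * ε)) • e₂ = (-α) • (ε • e₂) := by rw [smul_smul]; ring_nf
      rw [this]
      module
    have hv₂' : volume (slice D (x₁ + y) e₁ z) = ENNReal.ofReal s := by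
      rw [← hv₂]
      exact reframe' D ho₂ ho₁ hx (a := ε) (b := 0) (c := 0) (d := 1) (by rw [he]; simp)
        (by simp)
    have hsub : Pl (x₁ + y) e₁ z ⊆ Pl x₂ e₂ z :=
      Pl_sub hx (a := ε) (b := 0) (c := 0) (d := 1) (by rw [he]; simp) (by simp)
    by_cases hy0 : y = 0
    · rw [hy0, add_zero] at hsub
      have hne : (slice D x₁ e₁ z).Nonempty := by
        rw [nonempty_iff_ne_empty]
        intro h0
        rw [h0, measure_empty] at hv₁
        exact absurd hv₁.symm (by simpa using hs)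
      obtain ⟨p, hp⟩ := hne
      exact hdis _ hp ⟨p, rfl⟩ (hsub ⟨p, rfl⟩)
    · have hyn : 0 < ‖y‖ := norm_pos_iff.2 hy0
      have hey : inner ℝ e₁ y = (0 : ℝ) := by
        rw [hy, inner_sub_right, inner_sub_right, inner_smul_right, inner_smul_right, ho₁.ee,
          ho₁.orth, ← hα]
        ring
      have hzy : inner ℝ z y = (0 : ℝ) := by
        rw [hy, inner_sub_right, inner_sub_right, inner_smul_right, inner_smul_right, ho₁.ff,
          ho₁.fe, ← hβ]
        ring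
      have hyy : y = ‖y‖ • (‖y‖⁻¹ • y) := by
        rw [smul_smul, mul_inv_cancel₀ hyn.ne', one_smul]
      rw [hyy] at hv₂'
      refine caseA hD hconv hmax hs ho₁ (n := ‖y‖⁻¹ • y) ?_ ?_ ?_ hyn.ne' hv₁ hv₂'
      · rw [norm_smul, norm_inv, norm_norm, inv_mul_cancel₀ hyn.ne']
      · rw [inner_smul_right, hey, mul_zero]
      · rw [inner_smul_left, real_inner_comm, hzy, mul_zero]
  · obtain ⟨a, b, c, d, hrel, hnz⟩ := dep e₁ z e₂ (x₂ - x₁)
    have hd0 : d ≠ 0 := by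
      rintro rfl
      rw [zero_smul, add_zero] at hrel
      have hb : b = 0 := by
        have := congrArg (fun v => inner ℝ z v) hrel
        simp only [inner_add_right, inner_smul_right, inner_zero_right, ho₁.fe, ho₁.ff,
          ho₂.fe] at this
        linarith
      subst hb
      rw [zero_smul, add_zero] at hrel
      have hc0 : c ≠ 0 := by
        rintro rfl
        rw [zero_smul, add_zero] at hrel
        have : a = 0 := by
          have h1 := congrArg norm hrel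
          rw [norm_smul, ho₁.ne, mul_one, norm_zero] at h1
          exact norm_eq_zero.1 h1
        exact hnz ⟨this, rfl, rfl, rfl⟩
      have ha0 : a ≠ 0 := by
        rintro rfl
        rw [zero_smul, zero_add] at hrel
        have h1 := congrArg norm hrel
        rw [norm_smul, ho₂.ne, mul_one, norm_zero] at h1
        exact hc0 (norm_eq_zero.1 h1)
      have he : e₁ = (-(c / a)) • e₂ := by
        have h1 : a • e₁ = (-c) • e₂ := by
          have : a • e₁ = (a • e₁ + c • e₂) + (-c) • e₂ := by module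
          rw [this, hrel, zero_add]
        calc e₁ = a⁻¹ • (a • e₁) := by rw [smul_smul, inv_mul_cancel₀ ha0, one_smul]
          _ = (-(c / a)) • e₂ := by rw [h1, smul_smul]; congr 1; field_simp
      have hn : |(-(c / a))| = 1 := by
        have h1 := congrArg norm he
        rw [norm_smul, ho₁.ne, ho₂.ne, mul_one] at h1
        exact h1.symm
      refine hpar ⟨-(c / a), ?_, he⟩
      rcases abs_eq (zero_le_one) |>.1 hn with h | h
      · exact Or.inl h
      · exact Or.inr h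
    set O : E3 := x₁ + (-(a / d)) • e₁ + (-(b / d)) • z with hO
    have hO2 : O = x₂ + (c / d) • e₂ + (0 : ℝ) • z := by
      have h1 : d⁻¹ • (a • e₁ + b • z + c • e₂ + d • (x₂ - x₁)) = 0 := by rw [hrel, smul_zero]
      have h2 : d⁻¹ • (a • e₁ + b • z + c • e₂ + d • (x₂ - x₁)) =
          (a / d) • e₁ + (b / d) • z + (c / d) • e₂ + (x₂ - x₁) := by
        simp only [smul_add, smul_smul, inv_mul_cancel₀ hd0, one_smul]
        congr 2
        · congr 1
          · congr 1; field_simp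
          · congr 1; field_simp
        · congr 1; field_simp
      rw [h2] at h1
      have h3 : x₂ + (c / d) • e₂ + (0 : ℝ) • z =
          ((a / d) • e₁ + (b / d) • z + (c / d) • e₂ + (x₂ - x₁)) + O := by
        rw [hO]
        module
      rw [h3, h1, zero_add]
    have hw₁ : volume (slice D O e₁ z) = ENNReal.ofReal s := by
      rw [← hv₁]
      exact reframe' D ho₁ ho₁ hO (a := 1) (b := 0) (c := 0) (d := 1) (by simp) (by simp)
    have hw₂ : volume (slice D O e₂ z) = ENNReal.ofReal s := by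
      rw [← hv₂]
      exact reframe' D ho₂ ho₂ hO2 (a := 1) (b := 0) (c := 0) (d := 1) (by simp) (by simp)
    have hs₁ : Pl O e₁ z ⊆ Pl x₁ e₁ z :=
      Pl_sub hO (a := 1) (b := 0) (c := 0) (d := 1) (by simp) (by simp)
    have hs₂ : Pl O e₂ z ⊆ Pl x₂ e₂ z :=
      Pl_sub hO2 (a := 1) (b := 0) (c := 0) (d := 1) (by simp) (by simp)
    have hz₁ : ∀ p ∈ slice D O e₁ z, p.1 ≠ 0 := by
      intro p hp h0
      have hp' : O + p.1 • e₁ + p.2 • z ∈ D := hp
      refine hdis _ hp' (hs₁ ⟨p, rfl⟩) (hs₂ ⟨p, ?_⟩)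
      rw [h0]; simp
    have hz₂ : ∀ p ∈ slice D O e₂ z, p.1 ≠ 0 := by
      intro p hp h0
      have hp' : O + p.1 • e₂ + p.2 • z ∈ D := hp
      refine hdis _ hp' (hs₁ ⟨p, ?_⟩) (hs₂ ⟨p, rfl⟩)
      rw [h0]; simp
    obtain ⟨ε₁, hε₁, hp₁⟩ := sign_choice hconv hz₁
    obtain ⟨ε₂, hε₂, hp₂⟩ := sign_choice hconv hz₂
    have ho₁' := ho₁.smul hε₁
    have ho₂' := ho₂.smul hε₂
    have hw₁' : volume (slice D O (ε₁ • e₁) z) = ENNReal.ofReal s := by
      rw [← hw₁]
      exact reframe' D ho₁ ho₁' (a₀ := 0) (b₀ := 0) (a := ε₁) (b := 0) (c := 0) (d := 1)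
        (by simp) (by simp) (by simp)
    have hw₂' : volume (slice D O (ε₂ • e₂) z) = ENNReal.ofReal s := by
      rw [← hw₂]
      exact reframe' D ho₂ ho₂' (a₀ := 0) (b₀ := 0) (a := ε₂) (b := 0) (c := 0) (d := 1)
        (by simp) (by simp) (by simp)
    refine caseB hD hconv hmax hs ho₁' ho₂' ?_ hw₁' hw₂' hp₁ hp₂
    have hle : inner ℝ (ε₁ • e₁) (ε₂ • e₂) ≤ (1 : ℝ) := by
      have := real_inner_le_norm (ε₁ • e₁) (ε₂ • e₂)
      rwa [ho₁'.ne, ho₂'.ne, mul_one] at this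
    refine lt_of_le_of_ne hle fun heq => ?_
    have h1 : ‖ε₁ • e₁ - ε₂ • e₂‖ ^ 2 = 0 := by
      rw [norm_sub_sq_real, ho₁'.ne, ho₂'.ne, heq]; norm_num
    have h2 : ε₁ • e₁ = ε₂ • e₂ := by
      have := pow_eq_zero_iff two_ne_zero |>.1 h1
      exact sub_eq_zero.1 (norm_eq_zero.1 this)
    have hε₁2 : ε₁ * ε₁ = 1 := by rcases hε₁ with rfl | rfl <;> norm_num
    refine hpar ⟨ε₁ * ε₂, ?_, ?_⟩
    · rcases hε₁ with rfl | rfl <;> rcases hε₂ with rfl | rfl <;> norm_num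
    · rw [mul_smul, ← h2, smul_smul, hε₁2, one_smul]

/-- Meyer's theorem: two maximal plane sections of a convex body intersect. -/
theorem meyer (hs : 0 < s) {x₁ e₁ f₁ x₂ e₂ f₂ : E3} (ho₁ : Ortho e₁ f₁) (ho₂ : Ortho e₂ f₂)
    (hv₁ : volume (slice D x₁ e₁ f₁) = ENNReal.ofReal s)
    (hv₂ : volume (slice D x₂ e₂ f₂) = ENNReal.ofReal s) :
    ∃ y ∈ D, y ∈ Pl x₁ e₁ f₁ ∧ y ∈ Pl x₂ e₂ f₂ := by
  by_contra hcon
  push Not at hcon
  obtain ⟨a, b, c, d, hrel, hnz⟩ := dep e₁ f₁ e₂ f₂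
  set z₀ : E3 := a • e₁ + b • f₁ with hz₀
  have hz₀' : z₀ = (-c) • e₂ + (-d) • f₂ := by
    have : z₀ = (a • e₁ + b • f₁ + c • e₂ + d • f₂) + ((-c) • e₂ + (-d) • f₂) := by
      rw [hz₀]; module
    rw [this, hrel, zero_add]
  have hn1 : ‖z₀‖ ^ 2 = a ^ 2 + b ^ 2 := by
    rw [← real_inner_self_eq_norm_sq, hz₀]
    simp only [inner_add_left, inner_add_right, inner_smul_left, inner_smul_right, ho₁.ee,
      ho₁.ff, ho₁.orth, ho₁.fe]
    simp
    ring
  have hn2 : ‖z₀‖ ^ 2 = c ^ 2 + d ^ 2 := by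
    rw [← real_inner_self_eq_norm_sq, hz₀']
    simp only [inner_add_left, inner_add_right, inner_smul_left, inner_smul_right, ho₂.ee,
      ho₂.ff, ho₂.orth, ho₂.fe]
    simp
    ring
  have hN : 0 < ‖z₀‖ := by
    rcases (norm_nonneg z₀).eq_or_lt with h | h
    · exfalso
      rw [← h] at hn1 hn2
      apply hnz
      refine ⟨?_, ?_, ?_, ?_⟩ <;> nlinarith [sq_nonneg a, sq_nonneg b, sq_nonneg c, sq_nonneg d]
    · exact h
  set N : ℝ := ‖z₀‖ with hNdef
  -- normalised coefficients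
  have key : ∀ {e f : E3} (ho : Ortho e f) (α β : ℝ), z₀ = α • e + β • f →
      N ^ 2 = α ^ 2 + β ^ 2 → Ortho ((β / N) • e + (-(α / N)) • f) (N⁻¹ • z₀) ∧
        N⁻¹ • z₀ = (α / N) • e + (β / N) • f := by
    intro e f ho α β hz hN2
    have hz' : N⁻¹ • z₀ = (α / N) • e + (β / N) • f := by
      rw [hz, smul_add, smul_smul, smul_smul]
      congr 2 <;> field_simp
    have hq : (α / N) ^ 2 + (β / N) ^ 2 = 1 := by
      field_simp
      linarith
    refine ⟨⟨?_, ?_, ?_⟩, hz'⟩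
    · have h1 : ‖(β / N) • e + (-(α / N)) • f‖ ^ 2 = 1 := by
        rw [← real_inner_self_eq_norm_sq]
        simp only [inner_add_left, inner_add_right, inner_smul_left, inner_smul_right, ho.ee,
          ho.ff, ho.orth, ho.fe]
        simp
        nlinarith
      have h2 := norm_nonneg ((β / N) • e + (-(α / N)) • f)
      nlinarith
    · rw [norm_smul, norm_inv, Real.norm_eq_abs, abs_of_pos hN, ← hNdef,
        inv_mul_cancel₀ hN.ne']
    · rw [hz']
      simp only [inner_add_left, inner_add_right, inner_smul_left, inner_smul_right, ho.ee,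
        ho.ff, ho.orth, ho.fe]
      simp
      ring
  obtain ⟨ho₁', hz₁⟩ := key ho₁ a b hz₀ hn1
  obtain ⟨ho₂', hz₂⟩ := key ho₂ (-c) (-d) hz₀' (by rw [hn2]; ring)
  refine meyer_z hD hconv hmax hs ho₁' ho₂' (x₁ := x₁) (x₂ := x₂) ?_ ?_ ?_
  · rw [← hv₁]
    exact reframe' D ho₁ ho₁' (a₀ := 0) (b₀ := 0) (by simp) rfl hz₁
  · rw [← hv₂]
    exact reframe' D ho₂ ho₂' (a₀ := 0) (b₀ := 0) (by simp) rfl hz₂
  · intro y hy h1 h2
    exact hcon y hy (Pl_sub (a₀ := 0) (b₀ := 0) (by simp) rfl hz₁ h1)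
      (Pl_sub (a₀ := 0) (b₀ := 0) (by simp) rfl hz₂ h2)

end

end Pool.Agent.R299.Mey
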