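import Mathlib

open Set MeasureTheory Filter Topology
open scoped ENNReal

namespace Pool.Agent.R299.Mey

/-- Length of the vertical fibre. -/
noncomputable def len (C : Set (ℝ × ℝ)) (x : ℝ) : ℝ := (volume (Prod.mk x ⁻¹' C)).toReal

variable {C : Set (ℝ × ℝ)}

lemma fiber_compact (hC : IsCompact C) (x : ℝ) : IsCompact (Prod.mk x ⁻¹' C) := by
  refine (hC.image continuous_snd).of_isClosed_subset
    (hC.isClosed.preimage (by fun_prop)) ?_
  intro y hy
  exact ⟨(x, y), hy, rfl⟩

lemma fiber_convex (hconv : Convex ℝ C) (x : ℝ) : Convex ℝ (Prod.mk x ⁻¹' C) := by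
  intro y₁ h₁ y₂ h₂ a b ha hb hab
  have h := hconv h₁ h₂ ha hb hab
  have e : a • (x, y₁) + b • (x, y₂) = (x, a • y₁ + b • y₂) := by
    ext
    · simp only [Prod.fst_add, Prod.smul_fst, smul_eq_mul]
      rw [← add_mul, hab, one_mul]
    · simp
  rw [e] at h
  exact h

lemma exists_ends (hC : IsCompact C) (hconv : Convex ℝ C) {x : ℝ}
    (hne : (Prod.mk x ⁻¹' C).Nonempty) : ∃ lo hi : ℝ, lo ≤ hi ∧ len C x = hi - lo ∧
      ∀ z ∈ Icc lo hi, (x, z) ∈ C := by
  have hconn : IsConnected (Prod.mk x ⁻¹' C) := ⟨hne, (fiber_convex hconv x).isPreconnected⟩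
  have h := eq_Icc_of_connected_compact hconn (fiber_compact hC x)
  set lo := sInf (Prod.mk x ⁻¹' C)
  set hi := sSup (Prod.mk x ⁻¹' C)
  have hle : lo ≤ hi := by
    rw [h] at hne
    exact nonempty_Icc.1 hne
  refine ⟨lo, hi, hle, ?_, ?_⟩
  · rw [len, h, Real.volume_Icc, ENNReal.toReal_ofReal (by linarith)]
  · intro z hz
    have : z ∈ Prod.mk x ⁻¹' C := by rw [h]; exact hz
    exact this

lemma len_ge (hC : IsCompact C) (hconv : Convex ℝ C) {x lo hi : ℝ} (h1 : (x, lo) ∈ C)
    (h2 : (x, hi) ∈ C) (h : lo ≤ hi) : hi - lo ≤ len C x := by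
  have hsub : Icc lo hi ⊆ Prod.mk x ⁻¹' C := by
    have hc := fiber_convex hconv x
    exact hc.ordConnected.out h1 h2
  have hfin : volume (Prod.mk x ⁻¹' C) ≠ ∞ := (fiber_compact hC x).measure_lt_top.ne
  have := ENNReal.toReal_mono hfin (measure_mono hsub)
  rwa [Real.volume_Icc, ENNReal.toReal_ofReal (by linarith)] at this

lemma len_nonneg (x : ℝ) : 0 ≤ len C x := ENNReal.toReal_nonneg

lemma len_concave (hC : IsCompact C) (hconv : Convex ℝ C) :
    ConcaveOn ℝ (Prod.fst '' C) (len C) := by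
  refine ⟨?_, ?_⟩
  · exact hconv.linear_image (LinearMap.fst ℝ ℝ ℝ)
  · rintro _ ⟨⟨x₁, z₁⟩, h₁, rfl⟩ _ ⟨⟨x₂, z₂⟩, h₂, rfl⟩ a b ha hb hab
    obtain ⟨lo₁, hi₁, hle₁, hl₁, hC₁⟩ := exists_ends hC hconv (x := x₁) ⟨z₁, h₁⟩
    obtain ⟨lo₂, hi₂, hle₂, hl₂, hC₂⟩ := exists_ends hC hconv (x := x₂) ⟨z₂, h₂⟩
    simp only [hl₁, hl₂, smul_eq_mul]
    have e1 := hconv (hC₁ lo₁ ⟨le_rfl, hle₁⟩) (hC₂ lo₂ ⟨le_rfl, hle₂⟩) ha hb hab
    have e2 := hconv (hC₁ hi₁ ⟨hle₁, le_rfl⟩) (hC₂ hi₂ ⟨hle₂, le_rfl⟩) ha hb hab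
    have e3 : ∀ u v : ℝ, a • (x₁, u) + b • (x₂, v) = (a * x₁ + b * x₂, a * u + b * v) := by
      intro u v
      simp
    rw [e3] at e1 e2
    have := len_ge hC hconv e1 e2 (by nlinarith)
    linarith

lemma len_eq_zero {x : ℝ} (hx : x ∉ Prod.fst '' C) : len C x = 0 := by
  have : Prod.mk x ⁻¹' C = ∅ := by
    rw [Set.eq_empty_iff_forall_notMem]
    intro y hy
    exact hx ⟨(x, y), hy, rfl⟩
  rw [len, this]
  simp

lemma len_measurable (hC : IsCompact C) : Measurable (len C) :=
  (measurable_measure_prodMk_left hC.measurableSet).ennreal_toReal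

lemma lintegral_len (hC : IsCompact C) : ∫⁻ x, ENNReal.ofReal (len C x) = volume C := by
  have h1 : volume C = ∫⁻ x, volume (Prod.mk x ⁻¹' C) := by
    rw [Measure.volume_eq_prod, Measure.prod_apply hC.measurableSet]
  rw [h1]
  refine lintegral_congr fun x => ?_
  rw [len, ENNReal.ofReal_toReal (fiber_compact hC x).measure_lt_top.ne]

lemma len_integrable (hC : IsCompact C) : Integrable (len C) := by
  refine ⟨(len_measurable hC).aestronglyMeasurable, ?_⟩
  rw [hasFiniteIntegral_iff_ofReal (Eventually.of_forall fun x => len_nonneg x),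
    lintegral_len hC]
  exact hC.measure_lt_top

lemma integral_len (hC : IsCompact C) : ∫ x, len C x = (volume C).toReal := by
  rw [integral_eq_lintegral_of_nonneg_ae (Eventually.of_forall fun x => len_nonneg x)
    (len_measurable hC).aestronglyMeasurable, lintegral_len hC]

/-- The transport parametrisation of a planar convex body by the area to the left. -/
theorem transport (hC : IsCompact C) (hconv : Convex ℝ C) {s : ℝ} (hs : 0 < s)
    (hvol : volume C = ENNReal.ofReal s) : ∃ r g lo : ℝ → ℝ, ContinuousOn g (Ioo 0 s) ∧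
      ∀ m ∈ Ioo 0 s, 0 < g m ∧ HasDerivAt r (g m)⁻¹ m ∧
        ∀ z ∈ Icc (lo m) (lo m + g m), (r m, z) ∈ C := by
  -- the projection is an interval
  have hne : C.Nonempty := by
    rw [nonempty_iff_ne_empty]
    rintro rfl
    rw [measure_empty] at hvol
    exact absurd hvol.symm (by simpa using hs)
  have hI := hC.image continuous_fst
  have hIc : Convex ℝ (Prod.fst '' C) := (len_concave hC hconv).1
  have hIconn : IsConnected (Prod.fst '' C) := ⟨hne.image _, hIc.isPreconnected⟩
  have hIcc := eq_Icc_of_connected_compact hIconn hI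
  set a := sInf (Prod.fst '' C)
  set b := sSup (Prod.fst '' C)
  have hint : ∫ x, len C x = s := by
    rw [integral_len hC, hvol, ENNReal.toReal_ofReal hs.le]
  have hzero : ∀ x, x ∉ Icc a b → len C x = 0 := fun x hx => len_eq_zero (by rwa [hIcc])
  have hcc : ConcaveOn ℝ (Icc a b) (len C) := by rw [← hIcc]; exact len_concave hC hconv
  -- positivity inside
  have hpos : ∀ x ∈ Ioo a b, 0 < len C x := by
    intro x₀ hx₀
    by_contra hcon
    have hx00 : len C x₀ = 0 := le_antisymm (not_lt.1 hcon) (len_nonneg _)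
    have hall : ∀ x, len C x = 0 := by
      intro x
      by_cases hx : x ∈ Icc a b
      · -- x₀ is a convex combination of x and an endpoint
        obtain ⟨y, hy, α, β, hα, hβ, hαβ, hxy⟩ : ∃ y ∈ Icc a b, ∃ α β : ℝ, 0 < α ∧ 0 ≤ β ∧
            α + β = 1 ∧ α * x + β * y = x₀ := by
          rcases lt_trichotomy x x₀ with h | h | h
          · refine ⟨b, ⟨by linarith [hx₀.1, hx₀.2], le_rfl⟩, (b - x₀) / (b - x),
              (x₀ - x) / (b - x), ?_, ?_, ?_, ?_⟩
            · exact div_pos (by linarith [hx₀.2]) (by linarith [hx₀.2])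
            · exact div_nonneg (by linarith) (by linarith [hx₀.2])
            · have : b - x ≠ 0 := by linarith [hx₀.2]
              field_simp; ring
            · have : b - x ≠ 0 := by linarith [hx₀.2]
              field_simp; ring
          · exact ⟨x, hx, 1, 0, one_pos, le_rfl, by norm_num, by simpa using h⟩
          · refine ⟨a, ⟨le_rfl, by linarith [hx₀.1, hx₀.2]⟩, (x₀ - a) / (x - a),
              (x - x₀) / (x - a), ?_, ?_, ?_, ?_⟩
            · exact div_pos (by linarith [hx₀.1]) (by linarith [hx₀.1])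
            · exact div_nonneg (by linarith) (by linarith [hx₀.1])
            · have : x - a ≠ 0 := by linarith [hx₀.1]
              field_simp; ring
            · have : x - a ≠ 0 := by linarith [hx₀.1]
              field_simp; ring
        have h := hcc.2 hx hy hα.le hβ hαβ
        simp only [smul_eq_mul] at h
        rw [hxy, hx00] at h
        have h2 : 0 ≤ β * len C y := mul_nonneg hβ (len_nonneg _)
        have h3 : α * len C x ≤ 0 := by linarith
        exact le_antisymm (by
          by_contra h4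
          have := mul_pos hα (not_le.1 h4)
          linarith) (len_nonneg _)
      · exact hzero x hx
    have : ∫ x, len C x = 0 := by simp [hall]
    linarith
  have hcont : ∀ x ∈ Ioo a b, ContinuousAt (len C) x := by
    intro x hx
    have h := hcc.continuousOn_interior
    rw [interior_Icc] at h
    exact h.continuousAt (Ioo_mem_nhds hx.1 hx.2)
  have hab : a ≤ b := by
    have := hIconn.nonempty
    rw [hIcc] at this
    exact nonempty_Icc.1 this
  -- the distribution function
  let F : ℝ → ℝ := fun x => ∫ t in a..x, len C t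
  have hii : ∀ u v : ℝ, IntervalIntegrable (len C) volume u v := fun u v =>
    (len_integrable hC).intervalIntegrable
  have hFder : ∀ x ∈ Ioo a b, HasDerivAt F (len C x) x := fun x hx =>
    intervalIntegral.integral_hasDerivAt_right (hii a x)
      ((len_measurable hC).stronglyMeasurable.stronglyMeasurableAtFilter) (hcont x hx)
  have hFcont : Continuous F := intervalIntegral.continuous_primitive hii a
  have hFa : F a = 0 := intervalIntegral.integral_same
  have hFb : F b = s := by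
    show ∫ t in a..b, len C t = s
    rw [intervalIntegral.integral_of_le hab, ← integral_Icc_eq_integral_Ioc, ← hint]
    exact setIntegral_eq_integral_of_forall_compl_eq_zero fun x hx => hzero x hx
  have hFmono : StrictMonoOn F (Icc a b) := by
    refine strictMonoOn_of_deriv_pos (convex_Icc a b) hFcont.continuousOn ?_
    intro x hx
    rw [interior_Icc] at hx
    rw [(hFder x hx).deriv]
    exact hpos x hx
  -- the inverse
  have hex : ∀ m ∈ Ioo 0 s, ∃ x ∈ Ioo a b, F x = m := by
    intro m hm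
    have h1 : m ∈ Ioo (F a) (F b) := by rw [hFa, hFb]; exact hm
    exact intermediate_value_Ioo hab hFcont.continuousOn h1
  choose! r hrI hrF using hex
  have hrcont : ∀ m ∈ Ioo 0 s, ContinuousAt r m := by
    intro m hm
    rw [Metric.continuousAt_iff]
    intro ε hε
    obtain ⟨x₁, hx₁, hx₁'⟩ : ∃ x₁ ∈ Ioo a b, r m - ε < x₁ ∧ x₁ < r m :=
      ⟨max ((a + r m) / 2) (r m - ε / 2), ⟨lt_of_lt_of_le (by linarith [(hrI m hm).1])
        (le_max_left _ _), max_lt (by linarith [(hrI m hm).1, (hrI m hm).2])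
        (by linarith [(hrI m hm).2])⟩, lt_of_lt_of_le (by linarith) (le_max_right _ _),
        max_lt (by linarith [(hrI m hm).1]) (by linarith)⟩
    obtain ⟨x₂, hx₂, hx₂'⟩ : ∃ x₂ ∈ Ioo a b, r m < x₂ ∧ x₂ < r m + ε :=
      ⟨min ((b + r m) / 2) (r m + ε / 2), ⟨lt_min (by linarith [(hrI m hm).1, (hrI m hm).2])
        (by linarith [(hrI m hm).1]), lt_of_le_of_lt (min_le_left _ _)
        (by linarith [(hrI m hm).2])⟩, lt_min (by linarith [(hrI m hm).2]) (by linarith),
        lt_of_le_of_lt (min_le_right _ _) (by linarith)⟩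
    have hF1 : F x₁ < m := by
      have := hFmono (Ioo_subset_Icc_self hx₁) (Ioo_subset_Icc_self (hrI m hm)) hx₁'.2
      rwa [hrF m hm] at this
    have hF2 : m < F x₂ := by
      have := hFmono (Ioo_subset_Icc_self (hrI m hm)) (Ioo_subset_Icc_self hx₂) hx₂'.1
      rwa [hrF m hm] at this
    have hnb : Ioo (F x₁) (F x₂) ∩ Ioo 0 s ∈ 𝓝 m :=
      inter_mem (Ioo_mem_nhds hF1 hF2) (Ioo_mem_nhds hm.1 hm.2)
    obtain ⟨δ, hδ, hball⟩ := Metric.mem_nhds_iff.1 hnb
    refine ⟨δ, hδ, fun {m'} hm' => ?_⟩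
    obtain ⟨hm1, hm2⟩ := hball hm'
    have h1 : x₁ < r m' := by
      refine (hFmono.lt_iff_lt (Ioo_subset_Icc_self hx₁) (Ioo_subset_Icc_self (hrI m' hm2))).1 ?_
      rw [hrF m' hm2]; exact hm1.1
    have h2 : r m' < x₂ := by
      refine (hFmono.lt_iff_lt (Ioo_subset_Icc_self (hrI m' hm2)) (Ioo_subset_Icc_self hx₂)).1 ?_
      rw [hrF m' hm2]; exact hm1.2
    rw [Real.dist_eq, abs_lt]
    constructor <;> linarith [hx₁'.1, hx₂'.2]
  have hends : ∀ m ∈ Ioo 0 s, ∃ lo : ℝ, ∀ z ∈ Icc lo (lo + len C (r m)), (r m, z) ∈ C := by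
    intro m hm
    have h1 : r m ∈ Prod.fst '' C := by
      rw [hIcc]; exact Ioo_subset_Icc_self (hrI m hm)
    obtain ⟨⟨x, z⟩, hz, hx⟩ := h1
    have hx' : x = r m := hx
    subst hx'
    obtain ⟨lo, hi, _, hl, hz'⟩ := exists_ends hC hconv ⟨z, hz⟩
    refine ⟨lo, fun z hz => hz' z ?_⟩
    rw [hl] at hz
    simpa using hz
  choose! lo hlo using hends
  refine ⟨r, fun m => len C (r m), lo, ?_, fun m hm => ⟨hpos _ (hrI m hm), ?_, hlo m hm⟩⟩
  · intro m hm
    exact ((hcont (r m) (hrI m hm)).comp (hrcont m hm)).continuousWithinAt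
  · refine HasDerivAt.of_local_left_inverse (hrcont m hm) (hFder (r m) (hrI m hm))
      (hpos _ (hrI m hm)).ne' ?_
    filter_upwards [Ioo_mem_nhds hm.1 hm.2] with m' hm'
    exact hrF m' hm'

/-- Lower bound for the area of a planar set swept by vertical segments. -/
theorem swept {s : ℝ} (hC : MeasurableSet C) (σ σ' l lo w : ℝ → ℝ)
    (hσ : ∀ m ∈ Ioo 0 s, HasDerivAt σ (σ' m) m) (hσ' : ∀ m ∈ Ioo 0 s, 0 < σ' m)
    (hl : ∀ m ∈ Ioo 0 s, ∀ z ∈ Icc (lo m) (lo m + l m), (σ m, z) ∈ C)
    (hw : ∀ m ∈ Ioo 0 s, w m ≤ σ' m * l m) :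
    ∫⁻ m in Ioo 0 s, ENNReal.ofReal (w m) ≤ volume C := by
  have hmono : StrictMonoOn σ (Ioo 0 s) := by
    refine strictMonoOn_of_deriv_pos (convex_Ioo 0 s)
      (fun m hm => (hσ m hm).continuousAt.continuousWithinAt) ?_
    intro m hm
    rw [interior_Ioo] at hm
    rw [(hσ m hm).deriv]
    exact hσ' m hm
  have h1 : volume C = ∫⁻ x, volume (Prod.mk x ⁻¹' C) := by
    rw [Measure.volume_eq_prod, Measure.prod_apply hC]
  rw [h1]
  calc ∫⁻ m in Ioo 0 s, ENNReal.ofReal (w m)
      ≤ ∫⁻ m in Ioo 0 s, ENNReal.ofReal |σ' m| * volume (Prod.mk (σ m) ⁻¹' C) := by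
        refine setLIntegral_mono' measurableSet_Ioo fun m hm => ?_
        rw [abs_of_pos (hσ' m hm)]
        calc ENNReal.ofReal (w m) ≤ ENNReal.ofReal (σ' m * l m) :=
              ENNReal.ofReal_le_ofReal (hw m hm)
          _ = ENNReal.ofReal (σ' m) * ENNReal.ofReal (l m) :=
              ENNReal.ofReal_mul (hσ' m hm).le
          _ ≤ ENNReal.ofReal (σ' m) * volume (Prod.mk (σ m) ⁻¹' C) := by
              gcongr
              calc ENNReal.ofReal (l m) = volume (Icc (lo m) (lo m + l m)) := by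
                    rw [Real.volume_Icc]; congr 1; ring
                _ ≤ _ := measure_mono fun z hz => hl m hm z hz
    _ = ∫⁻ x in σ '' (Ioo 0 s), volume (Prod.mk x ⁻¹' C) := by
        rw [lintegral_image_eq_lintegral_abs_deriv_mul measurableSet_Ioo
          (fun m hm => (hσ m hm).hasDerivWithinAt) hmono.injOn]
    _ ≤ ∫⁻ x, volume (Prod.mk x ⁻¹' C) := setLIntegral_le_lintegral _ _

end Pool.Agent.R299.Mey
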